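import Pool.Agent.H.MP_b2d7dd_lc.TI.Defs

/-!
# Definitions used in the statement

Height of terms, closed terms, the equational theory of `N_HS` and its closed part as sets of
strings, and randomised reductions. The terms, their values, their strings and the class coRP are
defined in `Pool.Agent.TI` (module TI/Defs).
-/

namespace Pool.Agent.TE

open Pool.Agent.TI

/-- The height of a term: the maximal number of nested exponents. -/
def ht : Tm → ℕ
  | .one => 0
  | .var _ => 0
  | .add s t => max (ht s) (ht t)
  | .mul s t => max (ht s) (ht t)
  | .pow s t => max (ht s) (ht t + 1)

/-- No variable occurs in the term. -/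
def Closed : Tm → Prop
  | .one => True
  | .var _ => False
  | .add s t => Closed s ∧ Closed t
  | .mul s t => Closed s ∧ Closed t
  | .pow s t => Closed s ∧ Closed t

/-- The equational theory of `N_HS`: the strings of the identities which hold in `N_HS`. -/
def identities : Set (List Bool) :=
  {x | ∃ s t : Tm, Valid s t ∧ x = s.code ++ t.code}

/-- The closed part: the strings of the true identities without variables. -/
def closedIdentities : Set (List Bool) :=
  {x | ∃ s t : Tm, Closed s ∧ Closed t ∧ Valid s t ∧ x = s.code ++ t.code}

/-- The strings of the identities between terms of height at most `h` which hold in `N_HS`. -/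
def identitiesH (h : ℕ) : Set (List Bool) :=
  {x | ∃ s t : Tm, ht s ≤ h ∧ ht t ≤ h ∧ Valid s t ∧ x = s.code ++ t.code}

/-- The strings of the true identities without variables between terms of height at most `h`. -/
def closedIdentitiesH (h : ℕ) : Set (List Bool) :=
  {x | ∃ s t : Tm, Closed s ∧ Closed t ∧ ht s ≤ h ∧ ht t ≤ h ∧ Valid s t ∧
    x = s.code ++ t.code}

/-- The language `L` is reducible to `L'` in randomised polynomial time with one-sided error:
there are a polynomial `p` and a polynomial-time function `R` (on Turing machines) such that `R`
maps every `x` in `L` into `L'` whatever the random bits are, and maps any other `x` into `L'` with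
probability at most `1 / 2 ^ (length of x + 2)` over `p (length of x)` random bits. -/
def RandReduces (L L' : Set (List Bool)) : Prop :=
  ∃ (p : Polynomial ℕ) (R : List Bool × List Bool → List Bool),
    Nonempty (Turing.TM2ComputableInPolyTime pairCode (fun s : List Bool => s) R) ∧
    ∀ x : List Bool, (x ∈ L → ∀ r : List Bool, R (x, r) ∈ L') ∧
      (x ∉ L → prob (p.eval x.length) (fun r => R (x, r) ∈ L') ≤ 1 / 2 ^ (x.length + 2))

end Pool.Agent.TE
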