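import Pool.Agent.H.MP_b2d7dd_lc.TI.Blk
import Pool.Agent.H.MP_b2d7dd_lc.KV.Iter
import Pool.Agent.H.MP_b2d7dd_lc.TE.Defs

/-!
# Module Blk: parameters and blocks of random bits

`W n` bits per value; the value of a block `l` is `bval l + 2 ^ l.length` (the binary number with
the digits of `l` and a leading one). For the reduction the random bits are `n + 1` blocks of `W n`
bits. For the test they are `TT n` blocks of `wA n` bits: `n + 1` blocks for the values (their first
`W n` bits are used), and `KK n` blocks for the moduli (`TI.XA`: the value of the block plus one).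

`bl_join`, `card_XV_le`: see `Blk_flat`, `blk_join`, `card_XB_le` in TI/Blk. `parX`: `Zk n =
2 ^ (50 (n + 1) ^ 3)`. `par3`: see TI/Par (the definitions of `wB` and `wA` have the same form).
-/

namespace Pool.Agent.TE

open Pool.Agent.H.MP_5be563_lc.PT
open Pool.Agent.TI (Tm XA join)
open Pool.Agent.KV (Zk)

/-- The number of random bits of a value. -/
def W (n : ℕ) : ℕ := 50 * (n + 1) ^ 3 + 2 * n + 10

/-- The number of bits of a value. -/
def wB (n : ℕ) : ℕ := W n + 1

/-- The number of bits of a block of the test. -/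
def wA (n : ℕ) : ℕ := 2 * n * wB n + 10

/-- The number of moduli. -/
def KK (n : ℕ) : ℕ := 6 * wA n

/-- The number of blocks of the test. -/
def TT (n : ℕ) : ℕ := (n + 1) + KK n

theorem exists_pT : ∃ p : Polynomial ℕ, ∀ n, p.eval n = TT n * wA n := by
  refine ⟨((Polynomial.X + 1) + 6 * (2 * Polynomial.X *
    (50 * (Polynomial.X + 1) ^ 3 + 2 * Polynomial.X + 10 + 1) + 10)) *
    (2 * Polynomial.X * (50 * (Polynomial.X + 1) ^ 3 + 2 * Polynomial.X + 10 + 1) + 10),
    fun n => ?_⟩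
  simp only [Polynomial.eval_mul, Polynomial.eval_add, Polynomial.eval_X, Polynomial.eval_one,
    Polynomial.eval_ofNat, Polynomial.eval_pow, TT, KK, wA, wB, W]

theorem exists_pR : ∃ p : Polynomial ℕ, ∀ n, p.eval n = (n + 1) * W n := by
  refine ⟨(Polynomial.X + 1) * (50 * (Polynomial.X + 1) ^ 3 + 2 * Polynomial.X + 10),
    fun n => ?_⟩
  simp only [Polynomial.eval_mul, Polynomial.eval_add, Polynomial.eval_X, Polynomial.eval_one,
    Polynomial.eval_ofNat, Polynomial.eval_pow, W]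

/-- The `j`-th block of length `w`. -/
def bl (w : ℕ) (r : List Bool) (j : ℕ) : List Bool := (r.drop (j * w)).take w

private theorem Blk_flat (w : ℕ) : ∀ (L : List (List Bool)) (_ : ∀ l ∈ L, l.length = w) (j : ℕ)
    (hj : j < L.length), ((L.flatten).drop (j * w)).take w = L[j] := by
  intro L
  induction L with
  | nil =>
    intro _ j hj
    simp at hj
  | cons l L ih =>
    intro hL j hj
    have h1 : l.length = w := hL l (by simp)
    cases j with
    | zero =>
      rw [List.flatten_cons, Nat.zero_mul, List.drop_zero, List.getElem_cons_zero, ← h1,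
        List.take_left]
    | succ j =>
      rw [List.flatten_cons, Nat.add_mul, Nat.one_mul, Nat.add_comm, ← List.drop_drop]
      have h2 : (l ++ L.flatten).drop w = L.flatten := by rw [← h1, List.drop_left]
      rw [h2, List.getElem_cons_succ]
      exact ih (fun l hl => hL l (by simp [hl])) j (by simpa using hj)

theorem bl_join {T w : ℕ} (ρ : Fin T → Fin w → Bool) (j : ℕ) (hj : j < T) :
    bl w (join ρ) j = List.ofFn (ρ ⟨j, hj⟩) := by
  unfold bl join
  rw [Blk_flat w _ (fun l hl => ?_) j (by simpa using hj)]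
  · simp
  · rw [List.mem_ofFn] at hl
    obtain ⟨i, rfl⟩ := hl
    simp

/-- The value of a block, minus one. -/
def XV (v : ℕ) {w : ℕ} (ω : Fin w → Bool) : ℕ := bval ((List.ofFn ω).take v) + (2 ^ v - 1)

theorem XV_le {v w : ℕ} (ω : Fin w → Bool) : XV v ω + 1 ≤ 2 ^ (v + 1) := by
  have h : bval ((List.ofFn ω).take v) + 1 ≤ 2 ^ v := Pool.Agent.TI.XB_le ω
  unfold XV
  rw [pow_succ]
  omega

theorem card_XV_le {v w : ℕ} (h : v ≤ w) (u : ℕ) :
    (Finset.univ.filter fun ω : Fin w → Bool => XV v ω = u).card ≤ 2 ^ (w - v) := by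
  refine (Finset.card_le_card ?_).trans
    (Pool.Agent.TI.card_XB_le h (u - (2 ^ v - 1) + 1))
  intro ω hω
  rw [Finset.mem_filter] at hω ⊢
  refine ⟨Finset.mem_univ _, ?_⟩
  have h1 := hω.2
  unfold XV at h1
  unfold Pool.Agent.TI.XB
  omega

theorem parX (n : ℕ) : 2 ^ (n + 3) * ((n + 1) * Zk n) ≤ 2 ^ W n := by
  have h1 : n + 1 ≤ 2 ^ n := Nat.lt_two_pow_self
  unfold Zk W
  calc 2 ^ (n + 3) * ((n + 1) * 2 ^ (50 * (n + 1) ^ 3))
      ≤ 2 ^ (n + 3) * (2 ^ n * 2 ^ (50 * (n + 1) ^ 3)) := by gcongr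
    _ = 2 ^ ((n + 3) + (n + 50 * (n + 1) ^ 3)) := by rw [← pow_add, ← pow_add]
    _ ≤ 2 ^ (50 * (n + 1) ^ 3 + 2 * n + 10) :=
        Nat.pow_le_pow_right (by norm_num) (by omega)

private theorem Blk_sq (n : ℕ) : (n + 2) ^ 2 + 2 ≤ 2 ^ (n + 3) := by
  induction n with
  | zero => norm_num
  | succ n ih =>
    have h : 2 ^ (n + 1 + 3) = 2 * 2 ^ (n + 3) := by
      rw [show n + 1 + 3 = (n + 3) + 1 by ring, pow_succ]
      ring
    rw [h]
    nlinarith

private theorem Blk_wA (n : ℕ) : wA n = 2 * (n * wB n) + 10 := by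
  unfold wA
  ring

private theorem Blk_n (n : ℕ) : n ≤ n * wB n := by
  refine Nat.le_mul_of_pos_right n ?_
  unfold wB
  omega

theorem par3 (n : ℕ) :
    2 * (((wA n + 1) * n * (2 ^ wB n) ^ n + 1) + wA n) ≤ 2 ^ wA n := by
  have h4 := Blk_n n
  rw [← pow_mul, Blk_wA, mul_comm (wB n) n]
  obtain ⟨y, hy⟩ : ∃ y, y = n * wB n := ⟨_, rfl⟩
  rw [← hy] at h4 ⊢
  have h1 := Blk_sq y
  have h2 : (2 * y + 11) * y ≤ 2 ^ (y + 7) := by
    have e : 2 ^ (y + 7) = 16 * 2 ^ (y + 3) := by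
      rw [show y + 7 = (y + 3) + 4 by ring, pow_add]
      ring
    rw [e]
    nlinarith
  have h3 : 4 * y + 22 ≤ 2 ^ (y + 5) := by
    have e : 2 ^ (y + 5) = 4 * 2 ^ (y + 3) := by
      rw [show y + 5 = (y + 3) + 2 by ring, pow_add]
      ring
    rw [e]
    nlinarith
  have h5 : 2 ^ (y + 5) ≤ 2 ^ (2 * y + 8) := Nat.pow_le_pow_right (by norm_num) (by omega)
  have h6 : (2 : ℕ) ^ (2 * y + 10) = 4 * 2 ^ (2 * y + 8) := by
    rw [show 2 * y + 10 = (2 * y + 8) + 2 by ring, pow_add]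
    ring
  calc 2 * (((2 * y + 10 + 1) * n * 2 ^ y + 1) + (2 * y + 10))
      = 2 * ((2 * y + 11) * n) * 2 ^ y + (4 * y + 22) := by ring
    _ ≤ 2 * ((2 * y + 11) * y) * 2 ^ y + (4 * y + 22) := by gcongr
    _ ≤ 2 * 2 ^ (y + 7) * 2 ^ y + 2 ^ (y + 5) := by gcongr
    _ = 2 ^ (2 * y + 8) + 2 ^ (y + 5) := by ring
    _ ≤ 2 ^ (2 * y + 10) := by omega

theorem wB_le_wA {n : ℕ} (hn : 1 ≤ n) : wB n ≤ wA n := by
  rw [Blk_wA]
  have h : wB n ≤ n * wB n := Nat.le_mul_of_pos_left _ hn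
  omega

/-- Values of the terms at most at the numbers of variables. -/
theorem Zk_mono {m n : ℕ} (h : m ≤ n) : Zk m ≤ Zk n := by
  unfold Zk
  exact Nat.pow_le_pow_right (by norm_num) (by gcongr)

end Pool.Agent.TE
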