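import Pool.Agent.H.MP_b2d7dd_lc.TI.Tokz
import Pool.Agent.H.MP_b2d7dd_lc.TI.Read
import Pool.Agent.H.MP_b2d7dd_lc.TI.Terms
import Pool.Agent.H.MP_b2d7dd_lc.TE.Defs

/-!
# Module Clo: closed terms are recognised in polynomial time

A term is closed if and only if it has no variables; the names of the tokens are the variables
(`TI.Tm.names_toks`, `TI.tokz_toks`, `TI.Tm.code_eq`).
-/

namespace Pool.Agent.TE

open Pool.Agent.H.MP_5be563_lc.PT
open Pool.Agent.TI (Tm Tok tokz names)

/-- No variable token occurs. -/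
def clo (x : List Bool) : Bool :=
  match tokz x with
  | none => false
  | some T => (names T).isEmpty

theorem closed_iff (t : Tm) : Closed t ↔ t.vars = [] := by
  induction t with
  | one => simp [Closed, Tm.vars]
  | var w => simp [Closed, Tm.vars]
  | add s t ihs iht => simp [Closed, Tm.vars, ihs, iht]
  | mul s t ihs iht => simp [Closed, Tm.vars, ihs, iht]
  | pow s t ihs iht => simp [Closed, Tm.vars, ihs, iht]

theorem clo_code (s t : Tm) : clo (s.code ++ t.code) = true ↔ Closed s ∧ Closed t := by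
  have hcan : ∀ q ∈ s.toks ++ t.toks, Pool.Agent.TI.Can q := by
    intro q hq
    rcases List.mem_append.1 hq with h | h
    · exact s.can_toks q h
    · exact t.can_toks q h
  have hT : s.code ++ t.code = (s.toks ++ t.toks).flatMap Pool.Agent.TI.tokCode := by
    rw [s.code_eq, t.code_eq, List.flatMap_append]
  have htk : tokz (s.code ++ t.code) = some (s.toks ++ t.toks) := by
    rw [hT]
    exact Pool.Agent.TI.tokz_toks hcan
  unfold clo
  rw [htk]
  show (names (s.toks ++ t.toks)).isEmpty = true ↔ _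
  rw [Pool.Agent.TI.names_append, s.names_toks, t.names_toks, List.isEmpty_iff,
    List.append_eq_nil_iff, closed_iff, closed_iff]

theorem poly_clo : Poly clo := by
  have h1 : Poly (fun p : List Bool × List Tok => (names p.2).isEmpty) :=
    Poly.isEmpty (Pool.Agent.TI.Poly.names Poly.snd)
  have h := Poly.ocase (f := fun _ : List Bool => false)
    (g := fun _ T => (names T).isEmpty) (Pool.Agent.TI.Poly.tokz (f := fun x : List Bool => x) Poly.id)
    (Pool.Agent.H.MP_5be563_lc.PT.Poly.const false) h1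
  refine (show clo = _ from ?_) ▸ h
  funext y
  unfold clo
  cases tokz y <;> rfl

theorem closedIdentities_eq : closedIdentities = {x | x ∈ identities ∧ clo x = true} := by
  ext x
  constructor
  · rintro ⟨s, t, hs, ht, hv, rfl⟩
    exact ⟨⟨s, t, hv, rfl⟩, (clo_code s t).2 ⟨hs, ht⟩⟩
  · rintro ⟨⟨s, t, hv, rfl⟩, hc⟩
    have h := (clo_code s t).1 hc
    exact ⟨s, t, h.1, h.2, hv, rfl⟩

theorem closedIdentitiesH_eq (h : ℕ) :
    closedIdentitiesH h = {x | x ∈ identitiesH h ∧ clo x = true} := by
  ext x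
  constructor
  · rintro ⟨s, t, hs, ht, hs1, ht1, hv, rfl⟩
    exact ⟨⟨s, t, hs1, ht1, hv, rfl⟩, (clo_code s t).2 ⟨hs, ht⟩⟩
  · rintro ⟨⟨s, t, hs1, ht1, hv, rfl⟩, hc⟩
    have h := (clo_code s t).1 hc
    exact ⟨s, t, h.1, h.2, hs1, ht1, hv, rfl⟩

end Pool.Agent.TE
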