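import Pool.Agent.H.MP_b2d7dd_lc.KV.Line
import Pool.Agent.H.MP_b2d7dd_lc.TI.Hyb
import Pool.Agent.H.MP_b2d7dd_lc.TE.Blk

/-!
# Module Cnt: the error probability for the assignments

`N = s.vars ++ t.vars` has at most `n` elements. The assignment of a point `y : ℕ → ℕ` gives the
variable `w` the value `y (N.idxOf w) + 1`. `cntX`: `TI.hybrid` with `X = XV (W n)`,
`c = 2 ^ (w - W n)`, `Z = Zk n`, `G y := s.val (asp N y) ≠ t.val (asp N y)`, witness
`y0 j = x0 (N.getD j []) - 1` for a counterexample `x0`; compare `TI.cntB` in TI/Cnt (copy its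
auxiliary lemmas; `TI.line_case` with `asp` instead of `asg`). `zerosV` is `KV.zerosG` with
`pa = pb = {w0}`, `a = b = x` (`TI.Tm.val_eq_ev`; `sub {w0} x v = Function.update x w0 v`).
-/

namespace Pool.Agent.TE

open Pool.Agent.TI (Tm Valid)
open Pool.Agent.KV (Zk)

theorem zerosV (s t : Tm) {x : List Bool → ℕ} (hx : ∀ w, 0 < x w) (w0 : List Bool)
    (h : ∃ v : ℕ, 0 < v ∧ s.val (Function.update x w0 v) ≠ t.val (Function.update x w0 v))
    (S : Finset ℕ)
    (hS : ∀ v ∈ S, 0 < v ∧ s.val (Function.update x w0 v) = t.val (Function.update x w0 v)) :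
    S.card ≤ Zk (s.sz + t.sz) := by
  have e : ∀ v, KV.sub {w0} x v = Function.update x w0 v := by
    intro v
    funext w
    unfold KV.sub
    by_cases hw : w = w0
    · rw [hw, Function.update_self, if_pos (Set.mem_singleton w0)]
    · rw [Function.update_of_ne hw, if_neg (fun h1 => hw (Set.mem_singleton_iff.1 h1))]
  refine KV.zerosG s t hx hx {w0} {w0} ?_ S ?_
  · obtain ⟨v, hv, hne⟩ := h
    refine ⟨v, hv, ?_⟩
    rw [e, ← TI.Tm.val_eq_ev, ← TI.Tm.val_eq_ev]
    exact hne
  · intro v hv
    obtain ⟨h1, h2⟩ := hS v hv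
    refine ⟨h1, ?_⟩
    rw [e, ← TI.Tm.val_eq_ev, ← TI.Tm.val_eq_ev]
    exact h2

/-- The assignment given by a point. -/
def asp (N : List (List Bool)) (y : ℕ → ℕ) (w : List Bool) : ℕ := y (N.idxOf w) + 1

/-- The point given by blocks. -/
def ptx {R w : ℕ} (v : ℕ) (ρ : Fin R → Fin w → Bool) : ℕ → ℕ :=
  fun j => if h : j < R then XV v (ρ ⟨j, h⟩) else 0

private theorem Cnt_len (t : Tm) : t.vars.length ≤ t.sz := by
  induction t with
  | one => simp [Tm.vars, Tm.sz]
  | var w => simp [Tm.vars, Tm.sz]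
  | add s t hs ht => simp only [Tm.vars, Tm.sz, List.length_append]; omega
  | mul s t hs ht => simp only [Tm.vars, Tm.sz, List.length_append]; omega
  | pow s t hs ht => simp only [Tm.vars, Tm.sz, List.length_append]; omega

private theorem Cnt_idx {n : ℕ} {s t : Tm} (hn : s.sz + t.sz ≤ n) {w : List Bool}
    (hw : w ∈ s.vars ++ t.vars) : (s.vars ++ t.vars).idxOf w < n + 1 := by
  have h1 := List.idxOf_lt_length_of_mem hw
  have h2 := Cnt_len s
  have h3 := Cnt_len t
  rw [List.length_append] at h1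
  omega

private theorem Cnt_line (N : List (List Bool)) (y : ℕ → ℕ) (j : ℕ) :
    (∃ w0 : List Bool, ∀ v, ∀ w ∈ N,
      asp N (Function.update y j v) w = Function.update (asp N y) w0 (v + 1) w) ∨
    (∀ v, ∀ w ∈ N, asp N (Function.update y j v) w = asp N y w) := by
  by_cases h : ∃ w0 ∈ N, N.idxOf w0 = j
  · left
    obtain ⟨w0, hw0, hj⟩ := h
    refine ⟨w0, fun v w hw => ?_⟩
    unfold asp
    by_cases hww : w = w0
    · rw [hww, hj, Function.update_self, Function.update_self]
    · have hne : N.idxOf w ≠ j := by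
        intro h1
        rw [← hj] at h1
        exact hww ((List.idxOf_inj hw).mp h1)
      rw [Function.update_of_ne hne, Function.update_of_ne hww]
  · right
    intro v w hw
    unfold asp
    have hne : N.idxOf w ≠ j := fun h1 => h ⟨w, hw, h1⟩
    rw [Function.update_of_ne hne]

private theorem Cnt_y0 (N : List (List Bool)) {x0 : List Bool → ℕ} (hx0 : ∀ w, 0 < x0 w)
    {w : List Bool} (hw : w ∈ N) : asp N (fun j => x0 (N.getD j []) - 1) w = x0 w := by
  unfold asp
  have h1 := List.idxOf_lt_length_of_mem hw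
  show x0 (N.getD (N.idxOf w) []) - 1 + 1 = x0 w
  rw [List.getD_eq_getElem _ _ h1, List.getElem_idxOf]
  have h2 := hx0 w
  omega

private theorem Cnt_mul' {k W M R Z c : ℕ} (hW : 0 < W) {P : ℕ} (h : W * M ≤ R * Z * c * P)
    (h8 : k * (R * Z) * c ≤ W) : k * M ≤ P := by
  have h1 : W * (k * M) ≤ W * P := by
    calc W * (k * M) = k * (W * M) := by ring
      _ ≤ k * (R * Z * c * P) := Nat.mul_le_mul_left k h
      _ = (k * (R * Z) * c) * P := by ring
      _ ≤ W * P := Nat.mul_le_mul_right P h8
  exact Nat.le_of_mul_le_mul_left h1 hW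

theorem cntX {n w : ℕ} (hw : W n ≤ w) {s t : Tm} (hn : s.sz + t.sz ≤ n) (hv : ¬ Valid s t) :
    2 ^ (n + 3) * Nat.card {β : Fin (n + 1) → Fin w → Bool //
      s.val (asp (s.vars ++ t.vars) (ptx (W n) β)) =
        t.val (asp (s.vars ++ t.vars) (ptx (W n) β))} ≤ (2 ^ w) ^ (n + 1) := by
  obtain ⟨x0, hx0, h0⟩ : ∃ x0 : List Bool → ℕ, (∀ w, 0 < x0 w) ∧ s.val x0 ≠ t.val x0 := by
    unfold Valid at hv
    push Not at hv
    exact hv
  set N := s.vars ++ t.vars with hN
  have hsN : ∀ w ∈ s.vars, w ∈ N := fun w hw => List.mem_append_left _ hw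
  have htN : ∀ w ∈ t.vars, w ∈ N := fun w hw => List.mem_append_right _ hw
  have hcs : ∀ b b' : List Bool → ℕ, (∀ w ∈ N, b w = b' w) → s.val b = s.val b' :=
    fun b b' h => Tm.val_congr (fun w hw => h w (hsN w hw))
  have hct : ∀ b b' : List Bool → ℕ, (∀ w ∈ N, b w = b' w) → t.val b = t.val b' :=
    fun b b' h => Tm.val_congr (fun w hw => h w (htN w hw))
  have hWc : Fintype.card (Fin w → Bool) = 2 ^ w := by simp
  have key := TI.hybrid (R := n + 1) (W := Fin w → Bool) (XV (W n)) (2 ^ (w - W n))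
    (Zk n) (fun v => card_XV_le hw v)
    (fun y => s.val (asp N y) ≠ t.val (asp N y))
    (by
      intro j y hex S hS
      rcases Cnt_line N y j with ⟨w0, hw0⟩ | hno
      · have h1 : ∀ v, s.val (asp N (Function.update y j v)) =
            s.val (Function.update (asp N y) w0 (v + 1)) := fun v => hcs _ _ (hw0 v)
        have h2 : ∀ v, t.val (asp N (Function.update y j v)) =
            t.val (Function.update (asp N y) w0 (v + 1)) := fun v => hct _ _ (hw0 v)
        have h3 := zerosV s t (x := asp N y) (fun w => Nat.succ_pos _) w0 (by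
            obtain ⟨v, hv⟩ := hex
            refine ⟨v + 1, Nat.succ_pos v, ?_⟩
            rw [← h1, ← h2]
            exact hv) (S.map ⟨Nat.succ, Nat.succ_injective⟩) (by
            intro v hv
            obtain ⟨u, hu, rfl⟩ := Finset.mem_map.1 hv
            refine ⟨Nat.succ_pos u, ?_⟩
            have h3 := not_not.mp (hS u hu)
            rw [h1, h2] at h3
            exact h3)
        rw [Finset.card_map] at h3
        exact h3.trans (Zk_mono hn)
      · obtain ⟨v, hv⟩ := hex
        have hemp : S = ∅ := by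
          rw [Finset.eq_empty_iff_forall_notMem]
          intro v' hv'
          apply hS v' hv'
          have h1 : ∀ u, s.val (asp N (Function.update y j u)) = s.val (asp N y) :=
            fun u => hcs _ _ (hno u)
          have h2 : ∀ u, t.val (asp N (Function.update y j u)) = t.val (asp N y) :=
            fun u => hct _ _ (hno u)
          simp only [h1, h2] at hv ⊢
          exact hv
        rw [hemp]
        simp)
    (by
      intro y y' hyy
      have h1 : ∀ w ∈ N, asp N y w = asp N y' w := fun w hw => by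
        unfold asp
        rw [hyy _ (Cnt_idx hn hw)]
      rw [hcs _ _ h1, hct _ _ h1])
    (fun j => x0 (N.getD j []) - 1)
    (by
      have h1 : ∀ w ∈ N, asp N (fun j => x0 (N.getD j []) - 1) w = x0 w :=
        fun w hw => Cnt_y0 N hx0 hw
      rw [hcs _ _ h1, hct _ _ h1]
      exact h0)
  have hcard : Nat.card {β : Fin (n + 1) → Fin w → Bool //
      s.val (asp N (ptx (W n) β)) = t.val (asp N (ptx (W n) β))} =
      Nat.card {ρ : Fin (n + 1) → Fin w → Bool //
        ¬ (s.val (asp N (fun j => if h : j < n + 1 then XV (W n) (ρ ⟨j, h⟩) else 0)) ≠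
          t.val (asp N (fun j => if h : j < n + 1 then XV (W n) (ρ ⟨j, h⟩) else 0)))} :=
    Nat.card_congr (Equiv.subtypeEquivRight fun β => not_not.symm)
  rw [hcard]
  rw [hWc] at key
  refine Cnt_mul' (by positivity) key ?_
  have h1 := parX n
  have h2 : 2 ^ W n * 2 ^ (w - W n) = 2 ^ w := by
    rw [← pow_add]
    congr 1
    omega
  rw [← h2]
  exact Nat.mul_le_mul_right _ h1

end Pool.Agent.TE
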