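import Pool.Agent.H.MP_b2d7dd_lc.TE.Blk
import Pool.Agent.H.MP_b2d7dd_lc.TI.Terms
import Pool.Agent.H.MP_b2d7dd_lc.TI.Md

/-!
# Module CntM: the error probability for the moduli

`cntM`: `d` = the difference of the two values, `0 < d < 2 ^ c` with
`c = (wA n + 1) * n * (2 ^ wB n) ^ n + 1` (`Tm.val_eq_ev`, `Tm.ev_le` with `q = wA n`,
`B = 2 ^ wB n`; `n ≥ 1` by `Tm.sz_pos`; `par3`, `wB_le_wA`); a congruence modulo `m` means `m ∣ d`
(`Nat.modEq_iff_dvd'`); the number `D` of blocks `ω` with `XA ω ∣ d` satisfies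
`2 w D ≤ (2 w - 1) 2 ^ w`, `w = wA n` (`TI.md_count`; `XA` is a bijection onto `[1, 2 ^ w]`:
`TI.XA_inj`, `TI.XA_le`, `TI.XA_surj`); the number of `μ` is `D ^ KK n` (functions into the subtype);
`TI.amp`. Compare TI/CntM (the same with two assignments), if it is on main.
-/

namespace Pool.Agent.TE

open Pool.Agent.TI (Tm XA)

private theorem CntM_D {w d : ℕ}
    (h : 2 ^ w ≤ 2 * w * ((Finset.Icc 1 (2 ^ w)).filter fun m => ¬ m ∣ d).card) :
    2 * w * (Finset.univ.filter fun ω : Fin w → Bool => XA ω ∣ d).card ≤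
      (2 * w - 1) * 2 ^ w := by
  classical
  have h1 : ((Finset.Icc 1 (2 ^ w)).filter fun m => ¬ m ∣ d).card =
      (Finset.univ.filter fun ω : Fin w → Bool => ¬ XA ω ∣ d).card := by
    symm
    refine Finset.card_bij (fun ω _ => XA ω) ?_ ?_ ?_
    · intro ω hω
      rw [Finset.mem_filter] at hω ⊢
      exact ⟨Finset.mem_Icc.2 ⟨Nat.succ_le_succ (Nat.zero_le _), TI.XA_le ω⟩, hω.2⟩
    · intro a _ b _ hab
      exact TI.XA_inj hab
    · intro m hm
      rw [Finset.mem_filter, Finset.mem_Icc] at hm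
      obtain ⟨ω, hω⟩ := TI.XA_surj hm.1.1 hm.1.2
      exact ⟨ω, Finset.mem_filter.2 ⟨Finset.mem_univ _, by rw [hω]; exact hm.2⟩, hω⟩
  have h2 : (Finset.univ.filter fun ω : Fin w → Bool => XA ω ∣ d).card +
      (Finset.univ.filter fun ω : Fin w → Bool => ¬ XA ω ∣ d).card = 2 ^ w := by
    rw [Finset.card_filter_add_card_filter_not]
    simp
  rw [h1] at h
  set D := (Finset.univ.filter fun ω : Fin w → Bool => XA ω ∣ d).card
  set S := (Finset.univ.filter fun ω : Fin w → Bool => ¬ XA ω ∣ d).card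
  have h3 : 2 * w * D + 2 * w * S = 2 * w * 2 ^ w := by rw [← h2]; ring
  rw [Nat.sub_mul, Nat.one_mul]
  omega

private theorem CntM_pi {K w d : ℕ} :
    Nat.card {μ : Fin K → Fin w → Bool // ∀ j, XA (μ j) ∣ d} =
      (Finset.univ.filter fun ω : Fin w → Bool => XA ω ∣ d).card ^ K := by
  classical
  rw [Nat.card_congr (Equiv.subtypePiEquivPi (p := fun (_ : Fin K) (ω : Fin w → Bool) => XA ω ∣ d)),
    Nat.card_fun, Nat.card_eq_fintype_card, Nat.card_eq_fintype_card, Fintype.card_fin,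
    Fintype.card_subtype]

private theorem CntM_main {n a b : ℕ} (hab : a < b)
    (hb : b < 2 ^ ((wA n + 1) * n * (2 ^ wB n) ^ n + 1)) :
    4 * Nat.card {μ : Fin (KK n) → Fin (wA n) → Bool //
      ∀ j, a ≡ b [MOD XA (μ j)]} ≤ (2 ^ wA n) ^ KK n := by
  have hw : 1 ≤ wA n := by unfold wA; omega
  have h1 : ∀ μ : Fin (KK n) → Fin (wA n) → Bool,
      (∀ j, a ≡ b [MOD XA (μ j)]) ↔ ∀ j, XA (μ j) ∣ b - a := fun μ =>
    forall_congr' fun j => Nat.modEq_iff_dvd' hab.le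
  rw [Nat.card_congr (Equiv.subtypeEquivRight h1), CntM_pi]
  have h2 := TI.md_count (w := wA n) (c := (wA n + 1) * n * (2 ^ wB n) ^ n + 1) (d := b - a) hw
    (by omega) (by omega) (par3 n)
  exact TI.amp hw (CntM_D h2)

private theorem CntM_val {n : ℕ} {s : Tm} (hs : s.EF) (hn : s.sz ≤ n)
    {x : List Bool → ℕ} (hx : ∀ w, x w ≤ 2 ^ wB n) :
    s.val x < 2 ^ ((wA n + 1) * n * (2 ^ wB n) ^ n + 1) := by
  have h1 : 1 ≤ n := (Tm.sz_pos s).trans hn
  have hB : 2 ≤ 2 ^ wB n := by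
    calc 2 = 2 ^ 1 := rfl
      _ ≤ 2 ^ wB n := Nat.pow_le_pow_right (by norm_num) (by unfold wB; omega)
  rw [Tm.val_eq_ev]
  refine (Tm.ev_le (q := wA n) hB
    (fun w => (hx w).trans (Nat.pow_le_pow_right (by norm_num) (wB_le_wA h1))) hx hs).trans_lt ?_
  refine Nat.pow_lt_pow_right (by norm_num) (Nat.lt_succ_of_le ?_)
  exact Nat.mul_le_mul (Nat.mul_le_mul_left _ hn) (Nat.pow_le_pow_right (by omega) hn)

theorem cntM {n : ℕ} {s t : Tm} (hs : s.EF) (ht : t.EF) (hn : s.sz + t.sz ≤ n)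
    {x : List Bool → ℕ} (hx : ∀ w, x w ≤ 2 ^ wB n) (h0 : s.val x ≠ t.val x) :
    4 * Nat.card {μ : Fin (KK n) → Fin (wA n) → Bool //
      ∀ j, s.val x ≡ t.val x [MOD XA (μ j)]} ≤ (2 ^ wA n) ^ KK n := by
  have h1 := CntM_val hs (by omega : s.sz ≤ n) hx
  have h2 := CntM_val ht (by omega : t.sz ≤ n) hx
  rcases lt_or_gt_of_ne h0 with h | h
  · exact CntM_main h h2
  · have h4 := CntM_main h h1
    have h5 : ∀ μ : Fin (KK n) → Fin (wA n) → Bool,
        (∀ j, s.val x ≡ t.val x [MOD XA (μ j)]) ↔ ∀ j, t.val x ≡ s.val x [MOD XA (μ j)] := fun μ =>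
      forall_congr' fun j => ⟨fun h => h.symm, fun h => h.symm⟩
    rw [Nat.card_congr (Equiv.subtypeEquivRight h5)]
    exact h4

end Pool.Agent.TE
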