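import Pool.Agent.H.MP_b2d7dd_lc.TE.MachP
import Pool.Agent.H.MP_b2d7dd_lc.TE.Blk
import Pool.Agent.H.MP_b2d7dd_lc.TI.Unp

/-!
# Module Top: the test

The same as TI/Top, with one value for every variable; copy the proofs and adapt.
-/

namespace Pool.Agent.TE

open Pool.Agent.H.MP_5be563_lc.PT
open Pool.Agent.TI (Tm Tok Can tokCode canb canb_iff names tokz tokz_toks tokz_some beqv beqv_iff
  unpair unpair_pairCode pairCode)

variable {α : Type} [Enc α]

/-- The environment for the `j`-th modulus. -/
def envOf (n : ℕ) (N : List (List Bool)) (r : List Bool) (j : ℕ) : Env :=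
  (N, (List.range (n + 1)).map (fun i => (bl (wA n) r i).take (W n)), bl (wA n) r (n + 1 + j))

/-- The condition on the final state of the machine: two records, both with the flag `ef`, with
the same value. -/
def fin2 (s : List Rec × Bool) : Bool :=
  s.2 && !s.1.isEmpty && !s.1.tail.isEmpty && s.1.tail.tail.isEmpty &&
    (s.1.headD ((false, false), [], [])).1.2 &&
    (s.1.tail.headD ((false, false), [], [])).1.2 &&
    beqv (s.1.headD ((false, false), [], [])).2.1
      (s.1.tail.headD ((false, false), [], [])).2.1

/-- The test on a list of tokens. -/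
def acceptT (n : ℕ) (T : List Tok) (r : List Bool) : Bool :=
  (List.range (KK n)).all fun j => fin2 (mach (envOf n (names T) r j) (T.filter canb))

/-- The test. -/
def accept (x r : List Bool) : Bool :=
  match tokz x with
  | none => false
  | some T => acceptT x.length T r

/-- The values given by the random bits. -/
def xR (n : ℕ) (N : List (List Bool)) (r : List Bool) (w : List Bool) : ℕ :=
  bval ((bl (wA n) r (N.idxOf w)).take (W n)) +
    2 ^ ((bl (wA n) r (N.idxOf w)).take (W n)).length

theorem bv_envOf {n : ℕ} {N : List (List Bool)} (hN : N.length ≤ n) (r : List Bool) (j : ℕ) :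
    bv (envOf n N r j) = xR n N r := by
  funext w
  have h : N.idxOf w < n + 1 := lt_of_le_of_lt List.idxOf_le_length (by omega)
  have h1 : ((List.range (n + 1)).map (fun i => (bl (wA n) r i).take (W n))).getD (N.idxOf w) [] =
      (bl (wA n) r (N.idxOf w)).take (W n) := by
    rw [List.getD_eq_getElem?_getD, List.getElem?_map, List.getElem?_range h]
    rfl
  show bval (((List.range (n + 1)).map (fun i => (bl (wA n) r i).take (W n))).getD
    (N.idxOf w) []) + 2 ^ (((List.range (n + 1)).map
      (fun i => (bl (wA n) r i).take (W n))).getD (N.idxOf w) []).length = _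
  rw [h1]
  rfl

theorem xR_pos (n : ℕ) (N : List (List Bool)) (r : List Bool) (w : List Bool) :
    0 < xR n N r w := by
  unfold xR
  positivity

private theorem Top_filter {T : List Tok} (h : ∀ q ∈ T, Can q) : T.filter canb = T :=
  List.filter_eq_self.2 fun q hq => (canb_iff q).2 (h q hq)

private theorem Top_acceptT {n : ℕ} {T : List Tok} {r : List Bool} (h : ∀ q ∈ T, Can q) :
    acceptT n T r = true ↔ ∀ j < KK n, fin2 (mach (envOf n (names T) r j) T) = true := by
  unfold acceptT
  rw [Top_filter h, List.all_eq_true]
  simp only [List.mem_range]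

private theorem Top_fin2 (a b : Rec) :
    fin2 ([a, b], true) = true ↔ a.1.2 = true ∧ b.1.2 = true ∧ bval a.2.1 = bval b.2.1 := by
  rw [← beqv_iff]
  simp only [fin2, List.isEmpty_cons, List.tail_cons, List.isEmpty_nil, List.headD_cons,
    Bool.not_false, Bool.true_and, Bool.and_eq_true, and_assoc]

theorem accept_code {s t : Tm} (hs : s.EF) (ht : t.EF) {x : List Bool}
    (hx : x = s.code ++ t.code) (r : List Bool) :
    accept x r = true ↔ ∀ j < KK x.length,
      s.val (xR x.length (s.vars ++ t.vars) r) ≡ t.val (xR x.length (s.vars ++ t.vars) r)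
        [MOD bval (bl (wA x.length) r (x.length + 1 + j)) + 1] := by
  have hcan : ∀ q ∈ s.toks ++ t.toks, Can q := by
    intro q hq
    rcases List.mem_append.1 hq with h | h
    · exact s.can_toks q h
    · exact t.can_toks q h
  have hT : x = (s.toks ++ t.toks).flatMap tokCode := by
    rw [hx, s.code_eq, t.code_eq, List.flatMap_append]
  have htk : tokz x = some (s.toks ++ t.toks) := by
    rw [hT]
    exact tokz_toks hcan
  have hn : names (s.toks ++ t.toks) = s.vars ++ t.vars := by
    rw [Pool.Agent.TI.names_append, s.names_toks, t.names_toks]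
  have hN : (s.vars ++ t.vars).length ≤ x.length := by
    have h1 := s.length_vars_le
    have h2 := t.length_vars_le
    have h3 := s.sz_le_code
    have h4 := t.sz_le_code
    rw [hx, List.length_append, List.length_append]
    omega
  have hacc : accept x r = acceptT x.length (s.toks ++ t.toks) r := by
    unfold accept
    rw [htk]
  rw [hacc, Top_acceptT hcan, hn]
  refine forall_congr' fun j => imp_congr_right fun _ => ?_
  have hm : ∀ E : Env, mach E (s.toks ++ t.toks) = ([recOf E s, recOf E t], true) := by
    intro E
    unfold mach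
    rw [List.foldr_append, mach_toks, mach_toks]
  rw [hm, Top_fin2, recOf_r _ hs, recOf_r _ ht, bv_envOf hN]
  have h1 := (recOf_ef (envOf x.length (s.vars ++ t.vars) r j) s).2 hs
  have h2 := (recOf_ef (envOf x.length (s.vars ++ t.vars) r j) t).2 ht
  exact ⟨fun h => h.2.2, fun h => ⟨h1, h2, h⟩⟩

/-- There is at least one modulus. -/
theorem accept_imp {x r : List Bool} (h : accept x r = true) :
    ∃ s t : Tm, s.EF ∧ t.EF ∧ x = s.code ++ t.code := by
  rcases htk : tokz x with _ | T
  · unfold accept at h
    rw [htk] at h
    exact absurd h Bool.false_ne_true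
  obtain ⟨hx, hcan⟩ := tokz_some htk
  have hacc : accept x r = acceptT x.length T r := by
    unfold accept
    rw [htk]
  rw [hacc, Top_acceptT hcan] at h
  have hK : 0 < KK x.length := by
    unfold KK wA
    omega
  have h0 := h 0 hK
  obtain ⟨S, hS⟩ : ∃ S, mach (envOf x.length (names T) r 0) T = S := ⟨_, rfl⟩
  rw [hS] at h0
  obtain ⟨l, b⟩ := S
  have hb : b = true := by
    cases b with
    | false =>
      simp only [fin2, Bool.false_and] at h0
      exact absurd h0 Bool.false_ne_true
    | true => rfl
  subst hb
  obtain ⟨L, hTL, hL⟩ := mach_some _ hcan hS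
  rcases L with _ | ⟨s, _ | ⟨t, _ | ⟨u, L⟩⟩⟩
  · rw [hL] at h0
    simp only [fin2, List.map_nil, List.isEmpty_nil, Bool.not_true, Bool.and_false,
      Bool.false_and] at h0
    exact absurd h0 Bool.false_ne_true
  · rw [hL] at h0
    simp only [fin2, List.map_cons, List.map_nil, List.tail_cons, List.isEmpty_nil, Bool.not_true,
      Bool.and_false, Bool.false_and] at h0
    exact absurd h0 Bool.false_ne_true
  · have h1 := (Top_fin2 _ _).1 (by simpa only [hL, List.map_cons, List.map_nil] using h0)
    refine ⟨s, t, (recOf_ef _ s).1 h1.1, (recOf_ef _ t).1 h1.2.1, ?_⟩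
    rw [hx, hTL, s.code_eq, t.code_eq]
    simp only [List.flatMap_cons, List.flatMap_nil, List.append_nil, List.flatMap_append]
  · rw [hL] at h0
    simp only [fin2, List.map_cons, List.tail_cons, List.isEmpty_cons, Bool.and_false,
      Bool.false_and] at h0
    exact absurd h0 Bool.false_ne_true

private theorem Top_W {f : α → ℕ} (hf : Poly f) : Poly (fun a => W (f a)) := by
  have h1 : (fun a => W (f a)) = fun a => 50 * ((f a + 1) * (f a + 1) * (f a + 1)) +
      2 * f a + 10 := by
    funext a
    unfold W
    ring
  rw [h1]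
  fun_prop

private theorem Top_wB {f : α → ℕ} (hf : Poly f) : Poly (fun a => wB (f a)) := by
  have h := Top_W hf
  unfold wB
  fun_prop

private theorem Top_wA {f : α → ℕ} (hf : Poly f) : Poly (fun a => wA (f a)) := by
  have h := Top_wB hf
  unfold wA
  fun_prop

private theorem Top_KK {f : α → ℕ} (hf : Poly f) : Poly (fun a => KK (f a)) := by
  have h := Top_wA hf
  unfold KK
  fun_prop

private theorem Top_bl {fw : α → ℕ} {fr : α → List Bool} {fj : α → ℕ} (hw : Poly fw)
    (hr : Poly fr) (hj : Poly fj) : Poly (fun a => bl (fw a) (fr a) (fj a)) := by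
  unfold bl
  exact Poly.take hw (Poly.drop (Poly.mul hj hw) hr)

private theorem Top_envOf {fn : α → ℕ} {fN : α → List (List Bool)} {fr : α → List Bool}
    {fj : α → ℕ} (hn : Poly fn) (hN : Poly fN) (hr : Poly fr) (hj : Poly fj) :
    Poly (fun a => envOf (fn a) (fN a) (fr a) (fj a)) := by
  have hn' : Poly (fun p : α × ℕ => fn p.1) := Poly.comp hn Poly.fst
  have hr' : Poly (fun p : α × ℕ => fr p.1) := Poly.comp hr Poly.fst
  have hp : Poly (fun p : α × ℕ => p.2) := Poly.snd
  have hrange : Poly (fun a => List.range (fn a + 1)) := Poly.range (Poly.succ hn)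
  have h2 : Poly (fun a => (List.range (fn a + 1)).map
      (fun i => (bl (wA (fn a)) (fr a) i).take (W (fn a)))) :=
    H.MP_5be563_lc.PT.Poly.map (f := fun a i => (bl (wA (fn a)) (fr a) i).take (W (fn a)))
      (Poly.take (Top_W hn') (Top_bl (Top_wA hn') hr' hp)) hrange
  have h3 : Poly (fun a => bl (wA (fn a)) (fr a) (fn a + 1 + fj a)) :=
    Top_bl (Top_wA hn) hr (Poly.add (Poly.succ hn) hj)
  exact Poly.pair hN (Poly.pair h2 h3)

private theorem Top_polyfin2 {fs : α → List Rec × Bool} (hs : Poly fs) :
    Poly (fun a => fin2 (fs a)) := by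
  unfold fin2
  fun_prop

private theorem Top_polyT {fn : α → ℕ} {fT : α → List Tok} {fr : α → List Bool} (hn : Poly fn)
    (hT : Poly fT) (hr : Poly fr) : Poly (fun a => acceptT (fn a) (fT a) (fr a)) := by
  have hn' : Poly (fun p : α × ℕ => fn p.1) := Poly.comp hn Poly.fst
  have hr' : Poly (fun p : α × ℕ => fr p.1) := Poly.comp hr Poly.fst
  have hT' : Poly (fun p : α × ℕ => fT p.1) := Poly.comp hT Poly.fst
  have hp : Poly (fun p : α × ℕ => p.2) := Poly.snd
  have h1 : Poly (fun p : α × ℕ => fin2 (mach (envOf (fn p.1) (names (fT p.1)) (fr p.1) p.2)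
      ((fT p.1).filter canb))) :=
    Top_polyfin2 (poly_mach (Top_envOf hn' (Pool.Agent.TI.Poly.names hT') hr' hp) hT')
  exact Poly.all (f := fun a j => fin2 (mach (envOf (fn a) (names (fT a)) (fr a) j)
    ((fT a).filter canb))) h1 (Poly.range (Top_KK hn))

theorem poly_accept : Poly (fun y : List Bool => accept (unpair y).1 (unpair y).2) := by
  have hu : Poly (fun y : List Bool => unpair y) := Pool.Agent.TI.Poly.unpair Poly.id
  have h1 : Poly (fun y : List Bool => (unpair y).1) := Poly.comp Poly.fst hu
  have h2 : Poly (fun y : List Bool => (unpair y).2) := Poly.comp Poly.snd hu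
  have h1' : Poly (fun p : List Bool × List Tok => (unpair p.1).1.length) :=
    Poly.length (Poly.comp (f := fun y : List Bool => (unpair y).1)
      (g := fun p : List Bool × List Tok => p.1) h1 Poly.fst)
  have h2' : Poly (fun p : List Bool × List Tok => (unpair p.1).2) :=
    Poly.comp (f := fun y : List Bool => (unpair y).2)
      (g := fun p : List Bool × List Tok => p.1) h2 Poly.fst
  have h := Poly.ocase (f := fun _ : List Bool => false)
    (g := fun y T => acceptT (unpair y).1.length T (unpair y).2) (Pool.Agent.TI.Poly.tokz h1)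
    (H.MP_5be563_lc.PT.Poly.const false) (Top_polyT h1' Poly.snd h2')
  refine (show (fun y : List Bool => accept (unpair y).1 (unpair y).2) = _ from ?_) ▸ h
  funext y
  unfold accept
  cases tokz (unpair y).1 <;> rfl

theorem tm_accept : Nonempty (Turing.TM2ComputableInPolyTime pairCode Computability.encodeBool
    (fun z : List Bool × List Bool => accept z.1 z.2)) := by
  have h := Pool.Agent.TI.tm_pair poly_accept
  simpa only [unpair_pairCode] using h

end Pool.Agent.TE
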