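import Pool.Agent.H.MP_b2d7dd_lc.TE.Cnt
import Pool.Agent.H.MP_b2d7dd_lc.TE.CntM
import Pool.Agent.H.MP_b2d7dd_lc.TE.Top

/-!
# Module CntAll: the total error probability of the test

Compare TI/CntAll. `ρ : Fin (TT n) → block` is a pair `(β, μ)` (`Fin.appendEquiv`). With `bl_join`:
`xR n N (join ρ) = asp N (ptx (W n) β)` for every `w` (`W n ≤ wA n`, so the truncated block has
length `W n`; `XV` is the value minus one), at most `2 ^ wB n` (`XV_le`); the moduli are `XA (μ j)`.
The accepted pairs have `β` in the set of `cntX` (`w = wA n`) or else `μ` in the set of `cntM`.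
-/

namespace Pool.Agent.TE

open Pool.Agent.TI (Tm Valid join)

/-- Counting pairs. -/
theorem card_pair {A C : Type} [Fintype A] [Fintype C] (P : A → C → Prop) (P1 : A → Prop)
    (h1 : 4 * Nat.card {a : A // P1 a} ≤ Fintype.card A)
    (h2 : ∀ a, ¬ P1 a → 4 * Nat.card {c : C // P a c} ≤ Fintype.card C) :
    2 * Nat.card {z : A × C // P z.1 z.2} ≤ Fintype.card A * Fintype.card C := by
  classical
  have e : {z : A × C // P z.1 z.2} ≃ (Σ p : A, {c : C // P p c}) :=
    { toFun := fun z => ⟨z.1.1, ⟨z.1.2, z.2⟩⟩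
      invFun := fun q => ⟨(q.1, q.2.1), q.2.2⟩
      left_inv := fun _ => rfl
      right_inv := fun _ => rfl }
  rw [Nat.card_congr e, Nat.card_sigma]
  have hle : ∀ a, Nat.card {c : C // P a c} ≤ Fintype.card C := by
    intro a
    rw [Nat.card_eq_fintype_card]
    exact Fintype.card_subtype_le _
  have hsA : ∑ a : A, (if P1 a then 1 else 0) = Nat.card {a : A // P1 a} := by
    rw [Nat.card_eq_fintype_card, Fintype.card_subtype, Finset.card_filter]
  have hb : ∀ a, 4 * Nat.card {c : C // P a c} ≤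
      4 * ((if P1 a then 1 else 0) * Fintype.card C) + Fintype.card C := by
    intro a
    by_cases ha : P1 a
    · have := hle a
      simp only [ha, if_true, one_mul]
      omega
    · have := h2 a ha
      simp only [ha, if_false, zero_mul, mul_zero, zero_add]
      omega
  have h : 4 * ∑ a : A, Nat.card {c : C // P a c} ≤
      4 * (Nat.card {a : A // P1 a} * Fintype.card C) + Fintype.card A * Fintype.card C := by
    calc 4 * ∑ a : A, Nat.card {c : C // P a c}
        = ∑ a : A, 4 * Nat.card {c : C // P a c} := by rw [Finset.mul_sum]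
      _ ≤ ∑ a : A, (4 * ((if P1 a then 1 else 0) * Fintype.card C) + Fintype.card C) :=
          Finset.sum_le_sum fun a _ => hb a
      _ = 4 * (Nat.card {a : A // P1 a} * Fintype.card C) +
          Fintype.card A * Fintype.card C := by
            rw [Finset.sum_add_distrib, ← Finset.mul_sum, ← Finset.sum_mul, hsA,
              Finset.sum_const, Finset.card_univ, smul_eq_mul]
  have h5 : 4 * Nat.card {a : A // P1 a} * Fintype.card C ≤
      Fintype.card A * Fintype.card C := Nat.mul_le_mul_right _ h1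
  have h6 : 4 * (Nat.card {a : A // P1 a} * Fintype.card C) =
      4 * Nat.card {a : A // P1 a} * Fintype.card C := by ring
  omega

private theorem CntAll_len (t : Tm) : t.vars.length ≤ t.sz := by
  induction t with
  | one => simp [Tm.vars]
  | var w => simp [Tm.vars, Tm.sz]
  | add s t hs ht => simp only [Tm.vars, Tm.sz, List.length_append]; omega
  | mul s t hs ht => simp only [Tm.vars, Tm.sz, List.length_append]; omega
  | pow s t hs ht => simp only [Tm.vars, Tm.sz, List.length_append]; omega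

private theorem CntAll_idx {n : ℕ} {s t : Tm} (hn : s.sz + t.sz ≤ n) (w : List Bool) :
    (s.vars ++ t.vars).idxOf w < n + 1 := by
  have h1 := CntAll_len s
  have h2 := CntAll_len t
  have h3 : (s.vars ++ t.vars).idxOf w ≤ (s.vars ++ t.vars).length := List.idxOf_le_length
  rw [List.length_append] at h3
  omega

/-- The splitting of the blocks. -/
private def CntAll_pr (n : ℕ) (V : Type) :
    (Fin (n + 1) → V) × (Fin (KK n) → V) ≃ (Fin (TT n) → V) :=
  Fin.appendEquiv (n + 1) (KK n)

private theorem CntAll_a {n : ℕ} {V : Type}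
    (z : (Fin (n + 1) → V) × (Fin (KK n) → V)) (j : ℕ) (hj : j < n + 1)
    (hj' : j < TT n) : CntAll_pr n V z ⟨j, hj'⟩ = z.1 ⟨j, hj⟩ := by
  have h1 : (⟨j, hj'⟩ : Fin (TT n)) = Fin.castAdd (KK n) (⟨j, hj⟩ : Fin (n + 1)) := rfl
  rw [h1]
  show Fin.append z.1 z.2 (Fin.castAdd (KK n) _) = _
  rw [Fin.append_left]

private theorem CntAll_c {n : ℕ} {V : Type}
    (z : (Fin (n + 1) → V) × (Fin (KK n) → V)) (j : ℕ) (hj : j < KK n)
    (hj' : n + 1 + j < TT n) :
    CntAll_pr n V z ⟨n + 1 + j, hj'⟩ = z.2 ⟨j, hj⟩ := by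
  have h1 : (⟨n + 1 + j, hj'⟩ : Fin (TT n)) = Fin.natAdd (n + 1) (⟨j, hj⟩ : Fin (KK n)) := rfl
  rw [h1]
  show Fin.append z.1 z.2 (Fin.natAdd (n + 1) _) = _
  rw [Fin.append_right]

private theorem CntAll_x {n : ℕ} {N : List (List Bool)} (hN : ∀ w, N.idxOf w < n + 1)
    (hW : W n ≤ wA n) (z : (Fin (n + 1) → Fin (wA n) → Bool) × (Fin (KK n) → Fin (wA n) → Bool)) :
    xR n N (join (CntAll_pr n _ z)) = asp N (ptx (W n) z.1) := by
  funext w
  have hj := hN w
  have hj' : N.idxOf w < TT n := by unfold TT; omega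
  have hp : 1 ≤ 2 ^ W n := Nat.one_le_two_pow
  unfold xR asp ptx XV
  rw [bl_join _ _ hj', CntAll_a z _ hj hj', dif_pos hj, List.length_take, List.length_ofFn,
    min_eq_left hW]
  omega

theorem cntAll {n : ℕ} {s t : Tm} (hs : s.EF) (ht : t.EF) (hn : s.sz + t.sz ≤ n)
    (hv : ¬ Valid s t) :
    2 * Nat.card {ρ : Fin (TT n) → Fin (wA n) → Bool // ∀ j < KK n,
      s.val (xR n (s.vars ++ t.vars) (join ρ)) ≡ t.val (xR n (s.vars ++ t.vars) (join ρ))
        [MOD Pool.Agent.H.MP_5be563_lc.PT.bval (bl (wA n) (join ρ) (n + 1 + j)) + 1]} ≤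
      2 ^ (TT n * wA n) := by
  classical
  set N := s.vars ++ t.vars with hN
  have hidx : ∀ w, N.idxOf w < n + 1 := fun w => CntAll_idx hn w
  have hn1 : 1 ≤ n := by
    have := Tm.sz_pos s
    omega
  have hW : W n ≤ wA n := by
    have h1 := wB_le_wA hn1
    unfold wB at h1
    omega
  have hB : ∀ (β : Fin (n + 1) → Fin (wA n) → Bool) (w : List Bool),
      asp N (ptx (W n) β) w ≤ 2 ^ wB n := by
    intro β w
    unfold asp ptx
    rw [dif_pos (hidx w)]
    exact XV_le _
  have key := card_pair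
    (A := Fin (n + 1) → Fin (wA n) → Bool) (C := Fin (KK n) → Fin (wA n) → Bool)
    (fun β μ => ∀ j, s.val (asp N (ptx (W n) β)) ≡ t.val (asp N (ptx (W n) β))
      [MOD Pool.Agent.TI.XA (μ j)])
    (fun β => s.val (asp N (ptx (W n) β)) = t.val (asp N (ptx (W n) β)))
    (by
      have h := cntX hW hn hv
      have h4 : 4 ≤ 2 ^ (n + 3) := by
        calc 4 = 2 ^ 2 := rfl
          _ ≤ 2 ^ (n + 3) := Nat.pow_le_pow_right (by norm_num) (by omega)
      simp only [Fintype.card_fun, Fintype.card_fin, Fintype.card_bool]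
      exact (Nat.mul_le_mul_right _ h4).trans h)
    (by
      intro β hβ
      have h := cntM hs ht hn (hB β) hβ
      simpa only [Fintype.card_fun, Fintype.card_fin, Fintype.card_bool] using h)
  have hcard : Fintype.card (Fin (n + 1) → Fin (wA n) → Bool) *
      Fintype.card (Fin (KK n) → Fin (wA n) → Bool) = 2 ^ (TT n * wA n) := by
    simp only [Fintype.card_fun, Fintype.card_fin, Fintype.card_bool]
    unfold TT
    rw [← pow_add, ← pow_mul]
    congr 1
    ring
  rw [hcard] at key
  refine le_trans (le_of_eq ?_) key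
  congr 1
  refine Nat.card_congr (Equiv.subtypeEquiv (CntAll_pr n (Fin (wA n) → Bool)) ?_).symm
  intro z
  rw [CntAll_x hidx hW z]
  constructor
  · intro h j hj
    have hj' : n + 1 + j < TT n := by unfold TT; omega
    rw [bl_join _ _ hj', CntAll_c z j hj hj']
    exact h ⟨j, hj⟩
  · intro h j
    have hj' : n + 1 + (j : ℕ) < TT n := by have := j.2; unfold TT; omega
    have h' := h j j.2
    rw [bl_join _ _ hj', CntAll_c z j j.2 hj'] at h'
    exact h'

end Pool.Agent.TE
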