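import Pool.Agent.H.MP_b2d7dd_lc.TE.Defs
import Pool.Agent.H.MP_b2d7dd_lc.TI.Unp
import Pool.Agent.H.MP_5be563_lc.PT.Conv

/-!
# Module Comp: coRP and reductions

`corp_of_reduces`: let `(p, R)` be the reduction and `(p', V)` the test for `L'`. `R` and `V` are in
the class `Poly` (`poly_of_tm2`, `poly_of_tm2_bool`, `poly_pairCode`), so there is a polynomial `b`
with `p' |R (x, u)| ≤ b |x|` for all `u` with `|u| = p |x|` (`Poly.sz_le`, `length_lt_sz`,
`poly_mono`, `sz_lbool_le`). The test for `L`: with `n = |x|`, `y = R (x, r.take (p n))` and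
`k = p' |y|`, accept if `V (y, (r.drop (p n)).take k)` and `V (y, (r.drop (p n + b n)).take k)`;
the number of random bits is `p n + b n + b n` (`Poly.evalPolynomial`, `Poly.tm2_encoded` or
`TI.tm_pair`). The error: strings of length `p n + b n + b n` are triples `(u, v, w)`
(`Fin.appendEquiv`, `List.ofFn_fin_append`); `R (x, u) ∈ L'` for at most a quarter of the `u`; for
every other `u` at most half of the `v` and half of the `w` are accepted (`prob_take`), a quarter of
the pairs.
-/

namespace Pool.Agent.TE

open Pool.Agent.H.MP_5be563_lc.PT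
open Pool.Agent.TI (pairCode prob CoRP)

theorem poly_pairCode : Poly (fun z : List Bool × List Bool => pairCode z) := by
  unfold pairCode
  exact Poly.append
    (Poly.flatMap (f := fun _ b => [true, b]) (by fun_prop) Poly.fst)
    (Poly.flatMap (f := fun _ b => [false, b]) (by fun_prop) Poly.snd)

open Classical in
/-- The indicator of a proposition. -/
private noncomputable def Comp_ind (A : Prop) : ℝ := if A then 1 else 0

private theorem Comp_ind_nonneg (A : Prop) : 0 ≤ Comp_ind A := by
  unfold Comp_ind
  split_ifs <;> norm_num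

private theorem Comp_ind_le (A : Prop) : Comp_ind A ≤ 1 := by
  unfold Comp_ind
  split_ifs <;> norm_num

private theorem Comp_ind_true {A : Prop} (h : A) : Comp_ind A = 1 := if_pos h

private theorem Comp_ind_false {A : Prop} (h : ¬ A) : Comp_ind A = 0 := if_neg h

private theorem Comp_ind_mono {A B : Prop} (h : A → B) : Comp_ind A ≤ Comp_ind B := by
  by_cases hA : A
  · rw [Comp_ind_true hA, Comp_ind_true (h hA)]
  · rw [Comp_ind_false hA]
    exact Comp_ind_nonneg B

private theorem Comp_sum (m : ℕ) (P : List Bool → Prop) :
    prob m P = (∑ r : Fin m → Bool, Comp_ind (P (List.ofFn r))) / 2 ^ m := by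
  classical
  unfold prob
  congr 1
  rw [Nat.card_eq_fintype_card, Fintype.card_subtype, Finset.card_filter]
  push_cast
  refine Finset.sum_congr rfl fun r _ => ?_
  unfold Comp_ind
  congr

private theorem Comp_mono (m : ℕ) {P Q : List Bool → Prop} (h : ∀ r, P r → Q r) :
    prob m P ≤ prob m Q := by
  rw [Comp_sum, Comp_sum]
  gcongr with r _
  exact Comp_ind_mono (h _)

private theorem Comp_const (m : ℕ) (A : Prop) : prob m (fun _ => A) = Comp_ind A := by
  rw [Comp_sum, Finset.sum_const, Finset.card_univ, Fintype.card_fun, Fintype.card_bool,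
    Fintype.card_fin, nsmul_eq_mul]
  push_cast
  field_simp

private theorem Comp_split (a c : ℕ) (Q : List Bool → Prop) :
    prob (a + c) Q = (∑ u : Fin a → Bool, prob c (fun t => Q (List.ofFn u ++ t))) / 2 ^ a := by
  rw [Comp_sum, ← Equiv.sum_comp (Fin.appendEquiv a c), Fintype.sum_prod_type, pow_add,
    mul_comm, ← div_div, Finset.sum_div]
  congr 1
  refine Finset.sum_congr rfl fun u _ => ?_
  rw [Comp_sum]
  congr 1
  refine Finset.sum_congr rfl fun v _ => ?_
  rw [← List.ofFn_fin_append]
  rfl

private theorem Comp_len {k : ℕ} (u : Fin k → Bool) (t : List Bool) :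
    (List.ofFn u ++ t).take k = List.ofFn u := List.take_left' (List.length_ofFn)

private theorem Comp_len' {k : ℕ} (u : Fin k → Bool) (t : List Bool) :
    (List.ofFn u ++ t).drop k = t := List.drop_left' (List.length_ofFn)

/-- Only the first `k` bits matter. -/
theorem prob_take {k b : ℕ} (h : k ≤ b) (P : List Bool → Prop) :
    prob b (fun r => P (r.take k)) = prob k P := by
  obtain ⟨c, rfl⟩ := Nat.exists_eq_add_of_le h
  rw [Comp_split, Comp_sum k]
  congr 1
  refine Finset.sum_congr rfl fun u _ => ?_
  have h1 : (fun t : List Bool => P ((List.ofFn u ++ t).take k)) = fun _ => P (List.ofFn u) := by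
    funext t
    rw [Comp_len]
  rw [h1, Comp_const]

/-- Two independent tests. -/
private theorem Comp_two (b : ℕ) (P : List Bool → Prop) (h : prob b P ≤ 1 / 2) :
    prob (b + b) (fun t => P (t.take b) ∧ P (t.drop b)) ≤ 1 / 4 := by
  rw [Comp_split]
  have h1 : ∀ u : Fin b → Bool,
      prob b (fun t => P ((List.ofFn u ++ t).take b) ∧ P ((List.ofFn u ++ t).drop b)) ≤
        Comp_ind (P (List.ofFn u)) * (1 / 2) := by
    intro u
    simp only [Comp_len, Comp_len']
    by_cases hu : P (List.ofFn u)
    · rw [Comp_ind_true hu, one_mul]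
      refine le_trans (Comp_mono b ?_) h
      exact fun r hr => hr.2
    · rw [Comp_ind_false hu, zero_mul]
      have h2 : (fun t : List Bool => P (List.ofFn u) ∧ P t) = fun _ => False := by
        funext t
        exact propext ⟨fun h => hu h.1, fun h => h.elim⟩
      rw [h2, Comp_const, Comp_ind_false not_false]
  calc (∑ u : Fin b → Bool, prob b
        (fun t => P ((List.ofFn u ++ t).take b) ∧ P ((List.ofFn u ++ t).drop b))) / 2 ^ b
      ≤ (∑ u : Fin b → Bool, Comp_ind (P (List.ofFn u)) * (1 / 2)) / 2 ^ b := by
        gcongr with u _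
        exact h1 u
    _ = prob b P * (1 / 2) := by
        rw [← Finset.sum_mul, Comp_sum]
        ring
    _ ≤ 1 / 4 := by linarith

private theorem Comp_enc : Poly Computability.encodeBool := by
  have h : Poly (fun b : Bool => [b]) := by fun_prop
  exact h

theorem corp_of_reduces {L L' : Set (List Bool)} (h : RandReduces L L') (h' : CoRP L') :
    CoRP L := by
  obtain ⟨p, R, ⟨hR⟩, hRx⟩ := h
  obtain ⟨p', V, ⟨hV⟩, hVx⟩ := h'
  have hRp : Poly R := poly_of_tm2 (eb := fun s : List Bool => s) (f := R) hR poly_pairCode
  have hVp : Poly V := poly_of_tm2_bool hV poly_pairCode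
  obtain ⟨Q, hQ⟩ := hRp.sz_le
  -- the bound for the number of random bits of the second test
  obtain ⟨bT, hbT⟩ : ∃ bT : Polynomial ℕ, ∀ x u : List Bool, u.length = p.eval x.length →
      p'.eval (R (x, u)).length ≤ bT.eval x.length := by
    refine ⟨p'.comp (Q.comp (4 * Polynomial.X + 4 * p + 3)), ?_⟩
    intro x u hu
    rw [Polynomial.eval_comp, Polynomial.eval_comp]
    refine poly_mono p' ?_
    have h1 : (R (x, u)).length ≤ Q.eval (sz (x, u)) :=
      (length_lt_sz _).le.trans (hQ (x, u))
    refine h1.trans (poly_mono Q ?_)
    rw [sz_pair]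
    have h2 := sz_lbool_le x
    have h3 := sz_lbool_le u
    rw [hu] at h3
    simp only [Polynomial.eval_add, Polynomial.eval_mul, Polynomial.eval_X,
      Polynomial.eval_ofNat]
    omega
  let W : List Bool × List Bool → Bool := fun z =>
    V (R (z.1, z.2.take (p.eval z.1.length)),
        (z.2.drop (p.eval z.1.length)).take
          (p'.eval (R (z.1, z.2.take (p.eval z.1.length))).length)) &&
      V (R (z.1, z.2.take (p.eval z.1.length)),
        (z.2.drop (p.eval z.1.length + bT.eval z.1.length)).take
          (p'.eval (R (z.1, z.2.take (p.eval z.1.length))).length))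
  have hlen : Poly (fun z : List Bool × List Bool => z.1.length) := by fun_prop
  have hp : Poly (fun z : List Bool × List Bool => p.eval z.1.length) :=
    Poly.evalPolynomial p hlen
  have hb : Poly (fun z : List Bool × List Bool => bT.eval z.1.length) :=
    Poly.evalPolynomial bT hlen
  have hy : Poly (fun z : List Bool × List Bool => R (z.1, z.2.take (p.eval z.1.length))) :=
    hRp.comp (Poly.pair Poly.fst (Poly.take hp Poly.snd))
  have hk : Poly (fun z : List Bool × List Bool =>
      p'.eval (R (z.1, z.2.take (p.eval z.1.length))).length) :=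
    Poly.evalPolynomial p' (Poly.length hy)
  have hW : Poly W := by
    refine Poly.and (hVp.comp (Poly.pair hy (Poly.take hk (Poly.drop hp Poly.snd))))
      (hVp.comp (Poly.pair hy (Poly.take hk (Poly.drop (Poly.add hp hb) Poly.snd))))
  refine ⟨p + (bT + bT), W, Poly.tm2_encoded (dec := TI.unpair) (TI.Poly.unpair Poly.id)
    TI.unpair_pairCode (eb := Computability.encodeBool) Comp_enc hW, ?_⟩
  intro x
  constructor
  · intro hx r
    have h1 := (hRx x).1 hx (r.take (p.eval x.length))
    have h2 := (hVx _).1 h1
    simp only [W]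
    rw [h2, h2]
    rfl
  · intro hx
    have h1 := (hRx x).2 hx
    rw [Polynomial.eval_add, Polynomial.eval_add, Comp_split]
    have h2 : ∀ u : Fin (p.eval x.length) → Bool,
        prob (bT.eval x.length + bT.eval x.length)
          (fun t => W (x, List.ofFn u ++ t) = true) ≤
        Comp_ind (R (x, List.ofFn u) ∈ L') + 1 / 4 := by
      intro u
      by_cases hu : R (x, List.ofFn u) ∈ L'
      · rw [Comp_ind_true hu]
        have h3 := Comp_mono (bT.eval x.length + bT.eval x.length)
          (P := fun t => W (x, List.ofFn u ++ t) = true) (Q := fun _ => True)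
          (fun _ _ => trivial)
        rw [Comp_const, Comp_ind_true trivial] at h3
        linarith
      · rw [Comp_ind_false hu, zero_add]
        have h3 := (hVx _).2 hu
        have h4 := hbT x (List.ofFn u) List.length_ofFn
        have h5 := Comp_two (bT.eval x.length)
          (fun t => V (R (x, List.ofFn u),
            t.take (p'.eval (R (x, List.ofFn u)).length)) = true)
          (by
            rw [prob_take h4 (fun t => V (R (x, List.ofFn u), t) = true)]
            exact h3)
        refine le_trans (Comp_mono _ ?_) h5
        intro t ht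
        have e1 : (List.ofFn u ++ t).drop (p.eval x.length + bT.eval x.length) =
            t.drop (bT.eval x.length) := by
          rw [← List.drop_drop, Comp_len']
        simp only [W, Comp_len, Comp_len', e1, Bool.and_eq_true] at ht
        obtain ⟨h6, h7⟩ := ht
        constructor
        · rw [List.take_take, min_eq_left h4]
          exact h6
        · exact h7
    calc (∑ u : Fin (p.eval x.length) → Bool,
          prob (bT.eval x.length + bT.eval x.length)
            (fun t => W (x, List.ofFn u ++ t) = true)) / 2 ^ (p.eval x.length)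
        ≤ (∑ u : Fin (p.eval x.length) → Bool,
          (Comp_ind (R (x, List.ofFn u) ∈ L') + 1 / 4)) / 2 ^ (p.eval x.length) := by
          gcongr with u _
          exact h2 u
      _ = prob (p.eval x.length) (fun r => R (x, r) ∈ L') + 1 / 4 := by
          rw [Finset.sum_add_distrib, Comp_sum, Finset.sum_const, Finset.card_univ,
            Fintype.card_fun, Fintype.card_bool, Fintype.card_fin, nsmul_eq_mul]
          push_cast
          field_simp
      _ ≤ 1 / 2 ^ (x.length + 2) + 1 / 4 := by linarith
      _ ≤ 1 / 2 := by
          have h9 : (1 : ℝ) / 2 ^ (x.length + 2) ≤ 1 / 2 ^ 2 := by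
            apply one_div_le_one_div_of_le (by norm_num)
            exact pow_le_pow_right₀ (by norm_num) (by omega)
          norm_num at h9 ⊢
          linarith

/-- The test of `L` and the decision of `g`. -/
theorem corp_inter {L : Set (List Bool)} (h : CoRP L) {g : List Bool → Bool} (hg : Poly g) :
    CoRP {x | x ∈ L ∧ g x = true} := by
  obtain ⟨p, V, ⟨hV⟩, hVx⟩ := h
  have hVp : Poly V := poly_of_tm2_bool hV poly_pairCode
  have hW : Poly (fun z : List Bool × List Bool => V z && g z.1) :=
    Poly.and hVp (hg.comp Poly.fst)
  refine ⟨p, fun z => V z && g z.1, Poly.tm2_encoded (dec := TI.unpair)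
    (TI.Poly.unpair Poly.id) TI.unpair_pairCode (eb := Computability.encodeBool)
    Comp_enc hW, ?_⟩
  intro x
  constructor
  · rintro ⟨hx, hgx⟩ r
    simp only
    rw [(hVx x).1 hx r, hgx]
    rfl
  · intro hx
    by_cases hgx : g x = true
    · have hxL : x ∉ L := fun h => hx ⟨h, hgx⟩
      refine le_trans (Comp_mono _ ?_) ((hVx x).2 hxL)
      intro r hr
      exact (Bool.and_eq_true_iff.1 hr).1
    · refine le_trans (Comp_mono _ (Q := fun _ => False) ?_) ?_
      · intro r hr
        exact hgx (Bool.and_eq_true_iff.1 hr).2
      · rw [Comp_const, Comp_ind_false not_false]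
        norm_num

end Pool.Agent.TE
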