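import Pool.Agent.H.MP_b2d7dd_lc.TE.Mach
import Pool.Agent.H.MP_b2d7dd_lc.TI.MachP

/-!
# Module MachP: the stack machine of the test runs in polynomial time

The same as TI/MachP, for the environments and records of the test.
-/

namespace Pool.Agent.TE

open Pool.Agent.H.MP_5be563_lc.PT
open Pool.Agent.TI (Tm Tok Can canb canb_iff)

variable {α : Type} [Enc α]

private theorem MachP_bv (E : Env) (w : List Bool) : bv E w ≤ 2 ^ sz E := by
  unfold bv
  have h1 := Pool.Agent.TI.bval_lt (E.2.1.getD (E.1.idxOf w) [])
  have h0 : bval (E.2.1.getD (E.1.idxOf w) []) + 2 ^ (E.2.1.getD (E.1.idxOf w) []).length ≤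
      2 ^ ((E.2.1.getD (E.1.idxOf w) []).length + 1) := by
    rw [pow_succ]
    omega
  refine h0.trans (Nat.pow_le_pow_right (by norm_num) ?_)
  have hE : sz E.2.1 ≤ sz E := by
    rw [sz_prod E, sz_prod E.2]
    omega
  rw [List.getD_eq_getElem?_getD]
  cases h : E.2.1[E.1.idxOf w]? with
  | none =>
    have := sz_pos E
    simp only [Option.getD_none, List.length_nil]
    omega
  | some b =>
    have h2 : b ∈ E.2.1 := List.mem_of_getElem? h
    have h3 := sz_mem_lt h2
    have h4 := (sz_bool_list b).1
    simp only [Option.getD_some]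
    omega

private theorem MachP_rec (E : Env) (t : Tm) :
    sz (recOf E t) ≤ 25 + 2 * sz E + 4 * (sz E * t.sz) := by
  have h1 := length_recOf_r E t
  have h2 := length_recOf_e E (sz_pos E) (MachP_bv E) t
  have h3 := (sz_bool_list (recOf E t).2.1).2
  have h4 := (sz_bool_list (recOf E t).2.2).2
  have h5 := sz_bool_le (recOf E t).1.1
  have h6 := sz_bool_le (recOf E t).1.2
  have h8 := (sz_bool_list E.2.2).1
  have hE : sz E.2.2 ≤ sz E := by
    rw [sz_prod E, sz_prod E.2]
    omega
  have h9 := sz_prod (recOf E t)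
  have h10 := sz_prod (recOf E t).1
  have h12 := sz_prod (recOf E t).2
  omega

private theorem MachP_len (l : List Tm) : l.length ≤ (l.flatMap Tm.toks).length ∧
    ∀ t ∈ l, t.sz ≤ (l.flatMap Tm.toks).length := by
  induction l with
  | nil => simp
  | cons a l ih =>
    rw [List.flatMap_cons, List.length_append, List.length_cons, Pool.Agent.TI.Tm.length_toks]
    have h1 := a.sz_pos
    refine ⟨by omega, fun t ht => ?_⟩
    rcases List.mem_cons.1 ht with rfl | h
    · omega
    · have := ih.2 t h
      omega

private theorem MachP_sz (E : Env) {T : List Tok} (hT : ∀ q ∈ T, Can q) :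
    sz (mach E T) ≤ 40 * (sz E + 2) * (T.length + 2) ^ 2 * (sz E + 2) := by
  obtain ⟨S, hS⟩ : ∃ S, S = sz E := ⟨_, rfl⟩
  obtain ⟨n, hn⟩ : ∃ n, n = T.length := ⟨_, rfl⟩
  have key : sz (mach E T) ≤ n * (26 + 2 * S + 4 * (S * n)) + 5 := by
    rw [sz_prod (mach E T)]
    have hb := sz_bool_le (mach E T).2
    cases h : (mach E T).2 with
    | false =>
      rw [mach_false E T h, sz_lnil, sz_false]
      omega
    | true =>
      obtain ⟨l, hl, hl'⟩ := mach_some E hT (s := (mach E T).1) (Prod.ext rfl h)
      obtain ⟨h1, h2⟩ := MachP_len l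
      rw [← hl, ← hn] at h1 h2
      have h3 : sz (mach E T).1 ≤ (mach E T).1.length * (25 + 2 * S + 4 * (S * n) + 1) + 1 := by
        refine sz_le_of_forall _ _ fun a ha => ?_
        rw [hl'] at ha
        obtain ⟨t, ht, rfl⟩ := List.mem_map.1 ha
        have h4 := MachP_rec E t
        have h5 := Nat.mul_le_mul_left (sz E) (h2 t ht)
        rw [hS]
        omega
      have h6 : (mach E T).1.length = l.length := by
        rw [hl', List.length_map]
      rw [h6] at h3
      have h7 := Nat.mul_le_mul_right (25 + 2 * S + 4 * (S * n) + 1) h1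
      have h8 : n * (26 + 2 * S + 4 * (S * n)) = n * (25 + 2 * S + 4 * (S * n) + 1) := by
        congr 1
        ring
      rw [sz_true, h8]
      omega
  refine key.trans ?_
  rw [← hS, ← hn]
  have e : 40 * (S + 2) * (n + 2) ^ 2 * (S + 2) = n * (26 + 2 * S + 4 * (S * n)) + 5 +
      (40 * S ^ 2 * (n + 2) ^ 2 + 156 * S * n ^ 2 + 638 * S * n + 640 * S + 160 * n ^ 2 +
        614 * n + 635) := by
    ring
  rw [e]
  exact Nat.le_add_right _ _

theorem poly_mach {fE : α → Env} {fT : α → List Tok} (hE : Poly fE) (hT : Poly fT) :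
    Poly (fun a => mach (fE a) ((fT a).filter canb)) := by
  have hcan : Poly (fun p : α × Tok => canb p.2) := by
    unfold canb
    fun_prop
  have hl : Poly (fun a => (fT a).filter canb) := Poly.filter (f := fun _ q => canb q) hcan hT
  have hf : Poly (fun p : α × (List Rec × Bool) × Tok => stStep (fE p.1) p.2.2 p.2.1) := by
    refine poly_stStep (hE.comp Poly.fst) ?_ ?_
    · fun_prop
    · fun_prop
  exact Poly.foldr (f := fun p : α × (List Rec × Bool) × Tok => stStep (fE p.1) p.2.2 p.2.1)
    (l := fun a => (fT a).filter canb) (s0 := fun _ => (([], true) : List Rec × Bool))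
    (B := fun a => 40 * (sz (fE a) + 2) * (sz (fT a) + 2) ^ 2 * (sz (fE a) + 2)) hf hl
    (by fun_prop)
    (((((PBdd.const 40).mul (hE.sz_le.add (PBdd.const 2))).mul
      ((hT.sz_le.add (PBdd.const 2)).pow 2))).mul (hE.sz_le.add (PBdd.const 2))) (by
      intro a l₁ l₂ h
      have h1 : ∀ q ∈ l₂, Can q := by
        intro q hq
        have h2 : q ∈ (fT a).filter canb := by
          rw [h]
          exact List.mem_append_right _ hq
        exact (canb_iff q).1 (List.mem_filter.1 h2).2
      have h3 : l₂.length ≤ sz (fT a) := by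
        have h4 := length_lt_sz (fT a)
        have h5 := List.length_filter_le canb (fT a)
        rw [h, List.length_append] at h5
        omega
      refine (MachP_sz (fE a) h1).trans ?_
      refine Nat.mul_le_mul_right _ (Nat.mul_le_mul_left _ (Nat.pow_le_pow_left ?_ 2))
      omega)

end Pool.Agent.TE
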