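import Pool.Agent.H.MP_b2d7dd_lc.TE.MainR
import Pool.Agent.H.MP_b2d7dd_lc.TE.Comp
import Pool.Agent.H.MP_b2d7dd_lc.TE.Clo

/-!
# Module Main: the theory is in coRP if and only if its closed part is
-/

namespace Pool.Agent.TE

open Pool.Agent.TI (Tm Valid CoRP)

theorem corp_iff : CoRP identities ↔ CoRP closedIdentities := by
  constructor
  · intro h
    rw [closedIdentities_eq]
    exact corp_inter h poly_clo
  · exact corp_of_reduces reduces_closed

theorem corp_iffH (h : ℕ) : CoRP (identitiesH h) ↔ CoRP (closedIdentitiesH h) := by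
  constructor
  · intro hc
    rw [closedIdentitiesH_eq]
    exact corp_inter hc poly_clo
  · exact corp_of_reduces (reduces_closedH h)

end Pool.Agent.TE
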