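import Pool.Agent.H.MP_b2d7dd_lc.TI.Tokz
import Pool.Agent.H.MP_b2d7dd_lc.TI.Terms
import Pool.Agent.H.MP_b2d7dd_lc.TE.Defs

/-!
# Module Num: numerals and the substitution of numerals for variables

All by induction on the list or on the term (`bval (b :: l) = b.toNat + 2 * bval l`).
-/

namespace Pool.Agent.TE

open Pool.Agent.H.MP_5be563_lc.PT
open Pool.Agent.TI (Tm Tok)

/-- The numeral of the binary number with the digits `l` and a leading one. -/
def num : List Bool → Tm
  | [] => .one
  | b :: l => bif b then .add (.mul (.add .one .one) (num l)) .one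
      else .mul (.add .one .one) (num l)

theorem val_num (y : List Bool → ℕ) (l : List Bool) : (num l).val y = bval l + 2 ^ l.length := by
  induction l with
  | nil => simp [num, Tm.val, bval_nil]
  | cons b l ih =>
    cases b
    · simp only [num, cond_false, Tm.val, ih, bval_cons, List.length_cons, pow_succ,
        Bool.toNat_false]
      ring
    · simp only [num, cond_true, Tm.val, ih, bval_cons, List.length_cons, pow_succ,
        Bool.toNat_true]
      ring

theorem closed_num (l : List Bool) : Closed (num l) := by
  induction l with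
  | nil => trivial
  | cons b l ih =>
    cases b
    · exact ⟨⟨trivial, trivial⟩, ih⟩
    · exact ⟨⟨⟨trivial, trivial⟩, ih⟩, trivial⟩

theorem ht_num (l : List Bool) : ht (num l) = 0 := by
  induction l with
  | nil => rfl
  | cons b l ih =>
    cases b
    · simp only [num, cond_false, ht, ih, max_self]
    · simp only [num, cond_true, ht, ih, max_self]

/-- The substitution of the numerals of `v w` for the variables `w`. -/
def inst (v : List Bool → List Bool) : Tm → Tm
  | .one => .one
  | .var w => num (v w)
  | .add s t => .add (inst v s) (inst v t)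
  | .mul s t => .mul (inst v s) (inst v t)
  | .pow s t => .pow (inst v s) (inst v t)

theorem val_inst (v : List Bool → List Bool) (t : Tm) (y : List Bool → ℕ) :
    (inst v t).val y = t.val (fun w => bval (v w) + 2 ^ (v w).length) := by
  induction t with
  | one => rfl
  | var w => exact val_num y (v w)
  | add s t ihs iht => simp only [inst, Tm.val, ihs, iht]
  | mul s t ihs iht => simp only [inst, Tm.val, ihs, iht]
  | pow s t ihs iht => simp only [inst, Tm.val, ihs, iht]

theorem closed_inst (v : List Bool → List Bool) (t : Tm) : Closed (inst v t) := by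
  induction t with
  | one => trivial
  | var w => exact closed_num (v w)
  | add s t ihs iht => exact ⟨ihs, iht⟩
  | mul s t ihs iht => exact ⟨ihs, iht⟩
  | pow s t ihs iht => exact ⟨ihs, iht⟩

theorem ht_inst (v : List Bool → List Bool) (t : Tm) : ht (inst v t) = ht t := by
  induction t with
  | one => rfl
  | var w => exact ht_num (v w)
  | add s t ihs iht => simp only [inst, ht, ihs, iht]
  | mul s t ihs iht => simp only [inst, ht, ihs, iht]
  | pow s t ihs iht => simp only [inst, ht, ihs, iht]

theorem inst_congr {v v' : List Bool → List Bool} {t : Tm} (h : ∀ w ∈ t.vars, v w = v' w) :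
    inst v t = inst v' t := by
  induction t with
  | one => rfl
  | var w =>
    show num (v w) = num (v' w)
    rw [h w (List.mem_singleton_self w)]
  | add s t ihs iht =>
    show Tm.add (inst v s) (inst v t) = Tm.add (inst v' s) (inst v' t)
    rw [ihs fun w hw => h w (List.mem_append_left _ hw),
      iht fun w hw => h w (List.mem_append_right _ hw)]
  | mul s t ihs iht =>
    show Tm.mul (inst v s) (inst v t) = Tm.mul (inst v' s) (inst v' t)
    rw [ihs fun w hw => h w (List.mem_append_left _ hw),
      iht fun w hw => h w (List.mem_append_right _ hw)]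
  | pow s t ihs iht =>
    show Tm.pow (inst v s) (inst v t) = Tm.pow (inst v' s) (inst v' t)
    rw [ihs fun w hw => h w (List.mem_append_left _ hw),
      iht fun w hw => h w (List.mem_append_right _ hw)]

/-- The tokens of a numeral. -/
def numT (l : List Bool) : List Tok :=
  l.foldr (fun b T => bif b then [(1, []), (2, []), (1, []), (0, []), (0, [])] ++ T ++ [(0, [])]
    else [(2, []), (1, []), (0, []), (0, [])] ++ T) [(0, [])]

theorem toks_num (l : List Bool) : (num l).toks = numT l := by
  induction l with
  | nil => rfl
  | cons b l ih =>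
    cases b
    · show (Tm.mul (.add .one .one) (num l)).toks =
        [(2, []), (1, []), (0, []), (0, [])] ++ numT l
      rw [← ih]
      rfl
    · show (Tm.add (.mul (.add .one .one) (num l)) .one).toks =
        [(1, []), (2, []), (1, []), (0, []), (0, [])] ++ numT l ++ [(0, [])]
      rw [← ih]
      rfl

/-- Replacing a token. -/
def subT (v : List Bool → List Bool) (q : Tok) : List Tok :=
  bif decide (q.1 = 4) then numT (v q.2) else [q]

theorem toks_inst (v : List Bool → List Bool) (t : Tm) :
    (inst v t).toks = t.toks.flatMap (subT v) := by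
  induction t with
  | one => rfl
  | var w =>
    show (num (v w)).toks = [((4, w) : Tok)].flatMap (subT v)
    rw [toks_num, List.flatMap_singleton]
    rfl
  | add s t ihs iht =>
    show (1, []) :: ((inst v s).toks ++ (inst v t).toks) =
      (((1, []) : Tok) :: (s.toks ++ t.toks)).flatMap (subT v)
    rw [List.flatMap_cons, List.flatMap_append, ihs, iht]
    rfl
  | mul s t ihs iht =>
    show (2, []) :: ((inst v s).toks ++ (inst v t).toks) =
      (((2, []) : Tok) :: (s.toks ++ t.toks)).flatMap (subT v)
    rw [List.flatMap_cons, List.flatMap_append, ihs, iht]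
    rfl
  | pow s t ihs iht =>
    show (3, []) :: ((inst v s).toks ++ (inst v t).toks) =
      (((3, []) : Tok) :: (s.toks ++ t.toks)).flatMap (subT v)
    rw [List.flatMap_cons, List.flatMap_append, ihs, iht]
    rfl

/-- Height at most one means that the exponents contain no exponentiation. -/
theorem ht_eq_zero_iff (t : Tm) : ht t = 0 ↔ t.ExpFree := by
  induction t with
  | one => exact ⟨fun _ => trivial, fun _ => rfl⟩
  | var w => exact ⟨fun _ => trivial, fun _ => rfl⟩
  | add s t ihs iht =>
    show max (ht s) (ht t) = 0 ↔ s.ExpFree ∧ t.ExpFree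
    rw [← ihs, ← iht]
    omega
  | mul s t ihs iht =>
    show max (ht s) (ht t) = 0 ↔ s.ExpFree ∧ t.ExpFree
    rw [← ihs, ← iht]
    omega
  | pow s t _ _ =>
    show max (ht s) (ht t + 1) = 0 ↔ False
    refine ⟨fun h => ?_, fun h => h.elim⟩
    have h1 := le_max_right (ht s) (ht t + 1)
    omega

theorem ht_le_one_iff (t : Tm) : ht t ≤ 1 ↔ t.EF := by
  induction t with
  | one => exact ⟨fun _ => trivial, fun _ => Nat.zero_le 1⟩
  | var w => exact ⟨fun _ => trivial, fun _ => Nat.zero_le 1⟩
  | add s t ihs iht =>
    show max (ht s) (ht t) ≤ 1 ↔ s.EF ∧ t.EF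
    rw [← ihs, ← iht]
    omega
  | mul s t ihs iht =>
    show max (ht s) (ht t) ≤ 1 ↔ s.EF ∧ t.EF
    rw [← ihs, ← iht]
    omega
  | pow s t ihs _ =>
    show max (ht s) (ht t + 1) ≤ 1 ↔ s.EF ∧ t.ExpFree
    rw [← ihs, ← ht_eq_zero_iff t]
    omega

end Pool.Agent.TE
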