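import Pool.Agent.H.MP_b2d7dd_lc.TE.CntAll
import Pool.Agent.H.MP_b2d7dd_lc.TE.Num
import Pool.Agent.H.MP_b2d7dd_lc.TI.Read

/-!
# Module MainE: the identities between terms of height at most one are in coRP

The same as TI/Main with `EF` instead of `Tame` (`ht_le_one_iff`).
-/

namespace Pool.Agent.TE

open Pool.Agent.H.MP_5be563_lc.PT
open Pool.Agent.TI (Tm Valid prob CoRP)

private theorem MainE_valid {x : List Bool} (h : x ∈ identitiesH 1) (r : List Bool) :
    accept x r = true := by
  obtain ⟨s, t, hs, ht, hv, hx⟩ := h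
  rw [accept_code ((ht_le_one_iff s).1 hs) ((ht_le_one_iff t).1 ht) hx]
  intro j _
  rw [hv _ (xR_pos _ _ _)]

private theorem MainE_prob {x : List Bool} (h : x ∉ identitiesH 1) {p : Polynomial ℕ}
    (hp : ∀ n, p.eval n = TT n * wA n) :
    prob (p.eval x.length) (fun r => accept x r = true) ≤ 1 / 2 := by
  unfold prob
  rw [hp, Pool.Agent.TI.card_join (TT x.length) (wA x.length) (fun r => accept x r = true)]
  by_cases hc : ∃ s t : Tm, s.EF ∧ t.EF ∧ x = s.code ++ t.code
  · obtain ⟨s, t, hs, ht, hx⟩ := hc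
    have hv : ¬ Valid s t := fun hv =>
      h ⟨s, t, (ht_le_one_iff s).2 hs, (ht_le_one_iff t).2 ht, hv, hx⟩
    have hn : s.sz + t.sz ≤ x.length := by
      rw [hx, List.length_append]
      exact Nat.add_le_add s.sz_le_code t.sz_le_code
    have h1 := cntAll hs ht hn hv
    have h2 : Nat.card {ρ : Fin (TT x.length) → Fin (wA x.length) → Bool //
        accept x (Pool.Agent.TI.join ρ) = true} =
        Nat.card {ρ : Fin (TT x.length) → Fin (wA x.length) → Bool // ∀ j < KK x.length,
          s.val (xR x.length (s.vars ++ t.vars) (Pool.Agent.TI.join ρ)) ≡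
          t.val (xR x.length (s.vars ++ t.vars) (Pool.Agent.TI.join ρ))
          [MOD bval (bl (wA x.length) (Pool.Agent.TI.join ρ) (x.length + 1 + j)) + 1]} := by
      refine Nat.card_congr (Equiv.subtypeEquivRight fun ρ => ?_)
      exact accept_code hs ht hx (Pool.Agent.TI.join ρ)
    rw [h2, div_le_iff₀ (by positivity)]
    have h3 : (2 : ℝ) * (Nat.card {ρ : Fin (TT x.length) → Fin (wA x.length) → Bool //
        ∀ j < KK x.length,
          s.val (xR x.length (s.vars ++ t.vars) (Pool.Agent.TI.join ρ)) ≡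
          t.val (xR x.length (s.vars ++ t.vars) (Pool.Agent.TI.join ρ))
          [MOD bval (bl (wA x.length) (Pool.Agent.TI.join ρ) (x.length + 1 + j)) + 1]} : ℝ) ≤
        2 ^ (TT x.length * wA x.length) := by exact_mod_cast h1
    linarith
  · have h2 : Nat.card {ρ : Fin (TT x.length) → Fin (wA x.length) → Bool //
        accept x (Pool.Agent.TI.join ρ) = true} = 0 := by
      rw [Nat.card_eq_zero]
      left
      refine ⟨fun ρ => hc ?_⟩
      exact accept_imp ρ.2
    rw [h2]
    norm_num

theorem corp_one : CoRP (identitiesH 1) := by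
  obtain ⟨p, hp⟩ := exists_pT
  exact ⟨p, fun z => accept z.1 z.2, tm_accept, fun x => ⟨fun h r => MainE_valid h r,
    fun h => MainE_prob h hp⟩⟩

end Pool.Agent.TE
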