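import Pool.Agent.H.MP_b2d7dd_lc.TE.RedP
import Pool.Agent.H.MP_b2d7dd_lc.TE.Cnt
import Pool.Agent.H.MP_b2d7dd_lc.TI.Read

/-!
# Module MainR: the equational theory is reducible to its closed part

`prob_inst`: `TI.card_join (n + 1) (W n)`, `bl_join`, `val_inst`, and `cntX` with `w = W n`: for
`r = join ρ` and every variable `w` of the two terms (and every other `w`, since
`N.idxOf w ≤ N.length ≤ n`) `bval (vR n N r w) + 2 ^ (vR n N r w).length = asp N (ptx (W n) ρ) w`.
-/

namespace Pool.Agent.TE

open Pool.Agent.H.MP_5be563_lc.PT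
open Pool.Agent.TI (Tm Valid prob)

private theorem MainR_mono {m : ℕ} {P Q : List Bool → Prop} (h : ∀ r, P r → Q r) :
    prob m P ≤ prob m Q := by
  unfold prob
  refine div_le_div_of_nonneg_right ?_ (by positivity)
  have h1 : Nat.card {r : Fin m → Bool // P (List.ofFn r)} ≤
      Nat.card {r : Fin m → Bool // Q (List.ofFn r)} :=
    Nat.card_le_card_of_injective (fun r => ⟨r.1, h _ r.2⟩) fun a b hab => by
      rw [Subtype.mk.injEq] at hab
      exact Subtype.ext hab
  exact_mod_cast h1

private theorem MainR_zero {m : ℕ} {P : List Bool → Prop} (h : ∀ r, ¬ P r) (k : ℕ) :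
    prob m P ≤ 1 / 2 ^ k := by
  have h1 : prob m P = 0 := by
    unfold prob
    have : IsEmpty {r : Fin m → Bool // P (List.ofFn r)} := ⟨fun r => h _ r.2⟩
    rw [Nat.card_of_isEmpty]
    simp
  rw [h1]
  positivity

theorem prob_inst {n : ℕ} {s t : Tm} (hn : s.sz + t.sz ≤ n) (hv : ¬ Valid s t) :
    prob ((n + 1) * W n) (fun r => Valid (inst (vR n (s.vars ++ t.vars) r) s)
      (inst (vR n (s.vars ++ t.vars) r) t)) ≤ 1 / 2 ^ (n + 2) := by
  obtain ⟨N, hN⟩ : ∃ N, N = s.vars ++ t.vars := ⟨_, rfl⟩
  rw [← hN]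
  have hlen : N.length ≤ n := by
    rw [hN, List.length_append]
    have h1 := s.length_vars_le
    have h2 := t.length_vars_le
    omega
  have key := cntX (n := n) (w := W n) le_rfl hn hv
  rw [← hN] at key
  have h1 : Nat.card {ρ : Fin (n + 1) → Fin (W n) → Bool //
      Valid (inst (vR n N (Pool.Agent.TI.join ρ)) s) (inst (vR n N (Pool.Agent.TI.join ρ)) t)} ≤
      Nat.card {β : Fin (n + 1) → Fin (W n) → Bool //
        s.val (asp N (ptx (W n) β)) = t.val (asp N (ptx (W n) β))} := by
    refine Nat.card_le_card_of_injective (fun ρ => ⟨ρ.1, ?_⟩) fun a b hab => by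
      rw [Subtype.mk.injEq] at hab
      exact Subtype.ext hab
    have h2 := ρ.2 (fun _ => 1) (fun _ => Nat.one_pos)
    rw [val_inst, val_inst] at h2
    have h3 : (fun w => bval (vR n N (Pool.Agent.TI.join ρ.1) w) +
        2 ^ (vR n N (Pool.Agent.TI.join ρ.1) w).length) = asp N (ptx (W n) ρ.1) := by
      funext w
      have hj : N.idxOf w < n + 1 := by
        have := List.idxOf_le_length (l := N) (a := w)
        omega
      unfold vR asp ptx
      rw [bl_join ρ.1 _ hj, dif_pos hj]
      unfold XV
      rw [List.take_of_length_le (by simp), List.length_ofFn]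
      have : 1 ≤ 2 ^ W n := Nat.one_le_two_pow
      omega
    rw [h3] at h2
    exact h2
  unfold prob
  rw [Pool.Agent.TI.card_join (n + 1) (W n)
    (fun r => Valid (inst (vR n N r) s) (inst (vR n N r) t))]
  have h4 : 2 ^ (n + 3) * Nat.card {ρ : Fin (n + 1) → Fin (W n) → Bool //
      Valid (inst (vR n N (Pool.Agent.TI.join ρ)) s) (inst (vR n N (Pool.Agent.TI.join ρ)) t)} ≤
      2 ^ ((n + 1) * W n) := by
    refine (Nat.mul_le_mul_left _ h1).trans (key.trans (le_of_eq ?_))
    rw [← pow_mul, Nat.mul_comm]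
  rw [div_le_div_iff₀ (by positivity) (by positivity), one_mul]
  have h5 : (2 : ℝ) ^ (n + 3) * (Nat.card {ρ : Fin (n + 1) → Fin (W n) → Bool //
      Valid (inst (vR n N (Pool.Agent.TI.join ρ)) s)
        (inst (vR n N (Pool.Agent.TI.join ρ)) t)} : ℝ) ≤ 2 ^ ((n + 1) * W n) := by
    exact_mod_cast h4
  have h6 : (2 : ℝ) ^ (n + 3) = 2 ^ (n + 2) * 2 := by rw [← pow_succ]
  rw [h6] at h5
  have h7 : (0 : ℝ) ≤ (Nat.card {ρ : Fin (n + 1) → Fin (W n) → Bool //
      Valid (inst (vR n N (Pool.Agent.TI.join ρ)) s)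
        (inst (vR n N (Pool.Agent.TI.join ρ)) t)} : ℝ) * 2 ^ (n + 2) := by positivity
  linarith

theorem valid_inst {s t : Tm} (h : Valid s t) (v : List Bool → List Bool) :
    Valid (inst v s) (inst v t) := by
  intro y _
  rw [val_inst, val_inst]
  refine h _ fun w => ?_
  have : 0 < 2 ^ (v w).length := by positivity
  omega

/-- The empty string is not the string of an identity. -/
theorem code_ne_nil (s t : Tm) : s.code ++ t.code ≠ [] := by
  cases s <;> simp [Tm.code]

theorem reduces_closed : RandReduces identities closedIdentities := by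
  obtain ⟨p, hp⟩ := exists_pR
  refine ⟨p, fun z => red z.1 z.2, tm_red, fun x => ⟨?_, fun hx => ?_⟩⟩
  · rintro ⟨s, t, hv, hx⟩ r
    exact ⟨_, _, closed_inst _ s, closed_inst _ t, valid_inst hv _, red_code hx r⟩
  · by_cases h : ∃ s t : Tm, x = s.code ++ t.code
    · obtain ⟨s, t, h⟩ := h
      have hv : ¬ Valid s t := fun hv => hx ⟨s, t, hv, h⟩
      have hn : s.sz + t.sz ≤ x.length := by
        rw [h, List.length_append]
        exact Nat.add_le_add s.sz_le_code t.sz_le_code
      rw [hp]
      refine (MainR_mono ?_).trans (prob_inst hn hv)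
      rintro r ⟨s', t', -, -, hv', h'⟩
      have h1 : (inst (vR x.length (s.vars ++ t.vars) r) s).code ++
          (inst (vR x.length (s.vars ++ t.vars) r) t).code = s'.code ++ t'.code := by
        rw [← red_code h r]
        exact h'
      have h2 := Pool.Agent.TI.code_inj (a₁ := (inst (vR x.length (s.vars ++ t.vars) r) s,
        inst (vR x.length (s.vars ++ t.vars) r) t)) (a₂ := (s', t')) h1
      rw [Prod.mk.injEq] at h2
      rw [h2.1, h2.2]
      exact hv'
    · refine MainR_zero ?_ _
      rintro r ⟨s', t', -, -, -, h'⟩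
      have h1 : red x r = s'.code ++ t'.code := h'
      rw [red_bad h r] at h1
      exact code_ne_nil s' t' h1.symm

theorem reduces_closedH (h : ℕ) : RandReduces (identitiesH h) (closedIdentitiesH h) := by
  obtain ⟨p, hp⟩ := exists_pR
  refine ⟨p, fun z => red z.1 z.2, tm_red, fun x => ⟨?_, fun hx => ?_⟩⟩
  · rintro ⟨s, t, hs, ht, hv, hx⟩ r
    exact ⟨_, _, closed_inst _ s, closed_inst _ t, by rw [ht_inst]; exact hs,
      by rw [ht_inst]; exact ht, valid_inst hv _, red_code hx r⟩
  · by_cases hc : ∃ s t : Tm, x = s.code ++ t.code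
    · obtain ⟨s, t, hc⟩ := hc
      have hinv : ∀ r, red x r ∈ closedIdentitiesH h → ht s ≤ h ∧ ht t ≤ h ∧
          Valid (inst (vR x.length (s.vars ++ t.vars) r) s)
            (inst (vR x.length (s.vars ++ t.vars) r) t) := by
        rintro r ⟨s', t', -, -, hs', ht', hv', h'⟩
        have h1 : (inst (vR x.length (s.vars ++ t.vars) r) s).code ++
            (inst (vR x.length (s.vars ++ t.vars) r) t).code = s'.code ++ t'.code := by
          rw [← red_code hc r]
          exact h'
        have h2 := Pool.Agent.TI.code_inj (a₁ := (inst (vR x.length (s.vars ++ t.vars) r) s,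
          inst (vR x.length (s.vars ++ t.vars) r) t)) (a₂ := (s', t')) h1
        rw [Prod.mk.injEq] at h2
        refine ⟨?_, ?_, ?_⟩
        · rw [← ht_inst (vR x.length (s.vars ++ t.vars) r) s, h2.1]
          exact hs'
        · rw [← ht_inst (vR x.length (s.vars ++ t.vars) r) t, h2.2]
          exact ht'
        · rw [h2.1, h2.2]
          exact hv'
      by_cases hh : ht s ≤ h ∧ ht t ≤ h
      · have hv : ¬ Valid s t := fun hv => hx ⟨s, t, hh.1, hh.2, hv, hc⟩
        have hn : s.sz + t.sz ≤ x.length := by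
          rw [hc, List.length_append]
          exact Nat.add_le_add s.sz_le_code t.sz_le_code
        rw [hp]
        exact (MainR_mono fun r hr => (hinv r hr).2.2).trans (prob_inst hn hv)
      · exact MainR_zero (fun r hr => hh ⟨(hinv r hr).1, (hinv r hr).2.1⟩) _
    · refine MainR_zero ?_ _
      rintro r ⟨s', t', -, -, -, -, -, h'⟩
      have h1 : red x r = s'.code ++ t'.code := h'
      rw [red_bad hc r] at h1
      exact code_ne_nil s' t' h1.symm

end Pool.Agent.TE
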