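import Pool.Agent.H.MP_b2d7dd_lc.TI.Read
import Pool.Agent.H.MP_b2d7dd_lc.TE.Defs

/-!
# Module Mem: the string of an identity determines it
-/

namespace Pool.Agent.TE

open Pool.Agent.TI (Tm Valid code_inj)

theorem mem_identities_iff (s t : Tm) : s.code ++ t.code ∈ identities ↔ Valid s t := by
  constructor
  · rintro ⟨s', t', hv, h⟩
    have h1 := code_inj (a₁ := (s, t)) (a₂ := (s', t')) h
    rw [Prod.mk.injEq] at h1
    rw [h1.1, h1.2]
    exact hv
  · intro hv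
    exact ⟨s, t, hv, rfl⟩

theorem mem_identitiesH_iff (h : ℕ) (s t : Tm) :
    s.code ++ t.code ∈ identitiesH h ↔ ht s ≤ h ∧ ht t ≤ h ∧ Valid s t := by
  constructor
  · rintro ⟨s', t', hs, ht', hv, hx⟩
    have h1 := code_inj (a₁ := (s, t)) (a₂ := (s', t')) hx
    rw [Prod.mk.injEq] at h1
    rw [h1.1, h1.2]
    exact ⟨hs, ht', hv⟩
  · rintro ⟨hs, ht', hv⟩
    exact ⟨s, t, hs, ht', hv, rfl⟩

theorem mem_closedIdentities_iff (s t : Tm) :
    s.code ++ t.code ∈ closedIdentities ↔ Closed s ∧ Closed t ∧ Valid s t := by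
  constructor
  · rintro ⟨s', t', hs, ht', hv, hx⟩
    have h1 := code_inj (a₁ := (s, t)) (a₂ := (s', t')) hx
    rw [Prod.mk.injEq] at h1
    rw [h1.1, h1.2]
    exact ⟨hs, ht', hv⟩
  · rintro ⟨hs, ht', hv⟩
    exact ⟨s, t, hs, ht', hv, rfl⟩

end Pool.Agent.TE
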