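import Pool.Agent.H.MP_b2d7dd_lc.TI.MachP
import Pool.Agent.H.MP_b2d7dd_lc.TE.Num
import Pool.Agent.H.MP_b2d7dd_lc.TE.Blk

/-!
# Module Red: the reduction to closed identities

`red x r`: the variables of the tokens of `x` are replaced by the numerals of the blocks of `r`,
if `x` is the string of an identity; otherwise the result is the empty string.

`red_code`: `TI.tokz_toks`, `TI.names_append`, `TI.Tm.names_toks`, `TI.mach_toks`, `TI.fidx_eq`,
`toks_inst`, `TI.Tm.code_eq`. `red_bad`: `TI.tokz_some`, `TI.mach_some` (as in `TI.accept_imp`,
TI/Top).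
-/

namespace Pool.Agent.TE

open Pool.Agent.H.MP_5be563_lc.PT
open Pool.Agent.TI (Tm Tok tokz tokCode names fidx canb)

/-- The digits of the value of the variable `w`. -/
def vR (n : ℕ) (N : List (List Bool)) (r : List Bool) (w : List Bool) : List Bool :=
  bl (W n) r (N.idxOf w)

/-- The final state of the stack machine of TI with an empty environment. -/
def st (T : List Tok) : List Pool.Agent.TI.Rec × Bool := Pool.Agent.TI.mach ([], [], [], []) T

/-- The list of tokens consists of two terms. -/
def two (T : List Tok) : Bool :=
  (st T).2 && !(st T).1.isEmpty && !(st T).1.tail.isEmpty && (st T).1.tail.tail.isEmpty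

/-- The new tokens. -/
def redT (n : ℕ) (T : List Tok) (r : List Bool) : List Tok :=
  T.flatMap fun q => bif decide (q.1 = 4) then numT (bl (W n) r (fidx q.2 (names T))) else [q]

/-- The reduction. -/
def red (x r : List Bool) : List Bool :=
  match tokz x with
  | none => []
  | some T => bif two (T.filter canb) then (redT x.length T r).flatMap tokCode else []

private theorem Red_filter {T : List Tok} (h : ∀ q ∈ T, Pool.Agent.TI.Can q) :
    T.filter canb = T :=
  List.filter_eq_self.2 fun q hq => (Pool.Agent.TI.canb_iff q).2 (h q hq)

private theorem Red_redT (n : ℕ) (T : List Tok) (r : List Bool) :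
    redT n T r = T.flatMap (subT (vR n (names T) r)) := by
  unfold redT
  congr 1
  funext q
  rw [subT, vR, Pool.Agent.TI.fidx_eq]

private theorem Red_some {x : List Bool} {T : List Tok} (h : tokz x = some T) (r : List Bool) :
    red x r = bif two (T.filter canb) then (redT x.length T r).flatMap tokCode else [] := by
  unfold red
  rw [h]

theorem red_code {s t : Tm} {x : List Bool} (hx : x = s.code ++ t.code) (r : List Bool) :
    red x r = (inst (vR x.length (s.vars ++ t.vars) r) s).code ++
      (inst (vR x.length (s.vars ++ t.vars) r) t).code := by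
  have hcan : ∀ q ∈ s.toks ++ t.toks, Pool.Agent.TI.Can q := by
    intro q hq
    rcases List.mem_append.1 hq with h | h
    · exact s.can_toks q h
    · exact t.can_toks q h
  have hT : x = (s.toks ++ t.toks).flatMap tokCode := by
    rw [hx, s.code_eq, t.code_eq, List.flatMap_append]
  have htk : tokz x = some (s.toks ++ t.toks) := by
    rw [hT]
    exact Pool.Agent.TI.tokz_toks hcan
  have hn : names (s.toks ++ t.toks) = s.vars ++ t.vars := by
    rw [Pool.Agent.TI.names_append, s.names_toks, t.names_toks]
  have htwo : two (s.toks ++ t.toks) = true := by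
    have hm : st (s.toks ++ t.toks) = ([Pool.Agent.TI.recOf ([], [], [], []) s,
        Pool.Agent.TI.recOf ([], [], [], []) t], true) := by
      unfold st Pool.Agent.TI.mach
      rw [List.foldr_append, Pool.Agent.TI.mach_toks, Pool.Agent.TI.mach_toks]
    unfold two
    rw [hm]
    rfl
  rw [Red_some htk, Red_filter hcan, htwo, cond_true, Red_redT, hn, List.flatMap_append,
    List.flatMap_append, ← toks_inst, ← toks_inst, ← Tm.code_eq, ← Tm.code_eq]

theorem red_bad {x : List Bool} (h : ¬ ∃ s t : Tm, x = s.code ++ t.code) (r : List Bool) :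
    red x r = [] := by
  rcases htk : tokz x with _ | T
  · unfold red
    rw [htk]
  obtain ⟨hx, hcan⟩ := Pool.Agent.TI.tokz_some htk
  rw [Red_some htk, Red_filter hcan]
  rcases hb : two T with _ | _
  · rfl
  exfalso
  apply h
  obtain ⟨S, hS⟩ : ∃ S, Pool.Agent.TI.mach ([], [], [], []) T = S := ⟨_, rfl⟩
  unfold two st at hb
  rw [hS] at hb
  obtain ⟨l, b⟩ := S
  cases b with
  | false =>
    simp only [Bool.false_and] at hb
    exact absurd hb Bool.false_ne_true
  | true =>
    obtain ⟨L, hTL, hL⟩ := Pool.Agent.TI.mach_some _ hcan hS
    rcases L with _ | ⟨s, _ | ⟨t, _ | ⟨u, L⟩⟩⟩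
    · rw [hL] at hb
      simp only [List.map_nil, List.isEmpty_nil, Bool.not_true, Bool.and_false,
        Bool.false_and] at hb
      exact absurd hb Bool.false_ne_true
    · rw [hL] at hb
      simp only [List.map_cons, List.map_nil, List.tail_cons, List.isEmpty_nil, Bool.not_true,
        Bool.and_false, Bool.false_and] at hb
      exact absurd hb Bool.false_ne_true
    · refine ⟨s, t, ?_⟩
      rw [hx, hTL, s.code_eq, t.code_eq]
      simp only [List.flatMap_cons, List.flatMap_nil, List.append_nil, List.flatMap_append]
    · rw [hL] at hb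
      simp only [List.map_cons, List.tail_cons, List.isEmpty_cons, Bool.and_false] at hb
      exact absurd hb Bool.false_ne_true

end Pool.Agent.TE
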