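import Pool.Agent.H.MP_b2d7dd_lc.TE.Red
import Pool.Agent.H.MP_b2d7dd_lc.TI.Unp
import Pool.Agent.H.MP_5be563_lc.PT.Conv

/-!
# Module RedP: the reduction is computable in polynomial time

`poly_red`: `Poly.ocase` with `TI.Poly.tokz` as in `TI.poly_accept` (TI/Top); `TI.Poly.mach`,
`TI.Poly.names`, `Poly.flatMap`, `Poly.foldr` for `numT` (length `6 * l.length + 1` at most),
`fidx` as in `poly_fidx` (TI/Mach), the polynomial `W n` of the unary number `n` by `fun_prop` or
`Poly.evalPolynomial`, `tokCode` by `Poly.cond'`/`Poly.ite`.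
`tm_red`: `Poly.tm2_encoded` with `TI.unpair`.
-/

namespace Pool.Agent.TE

open Pool.Agent.H.MP_5be563_lc.PT
open Pool.Agent.TI (pairCode unpair unpair_pairCode)
open Pool.Agent.TI (Tok tokz tokCode names fidx fidx_eq canb)

variable {α : Type} [Enc α]

private theorem RedP_W {f : α → ℕ} (hf : Poly f) : Poly (fun a => W (f a)) := by
  have h : Poly (fun a => 50 * ((f a + 1) * ((f a + 1) * (f a + 1))) + 2 * f a + 10) := by
    fun_prop
  refine (show (fun a => W (f a)) = _ from ?_) ▸ h
  funext a
  unfold W
  ring

private theorem RedP_bl {fw : α → ℕ} {fr : α → List Bool} {fj : α → ℕ} (hw : Poly fw)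
    (hr : Poly fr) (hj : Poly fj) : Poly (fun a => bl (fw a) (fr a) (fj a)) := by
  unfold bl
  exact Poly.take hw (Poly.drop (Poly.mul hj hw) hr)

private theorem RedP_fidx {fw : α → List Bool} {fl : α → List (List Bool)} (hw : Poly fw)
    (hl : Poly fl) : Poly (fun a => fidx (fw a) (fl a)) := by
  have hle : ∀ (w : List Bool) (l : List (List Bool)), fidx w l ≤ l.length := by
    intro w l
    rw [fidx_eq]
    exact List.idxOf_le_length
  unfold fidx
  refine Poly.foldr (f := fun p : α × ℕ × List Bool =>
      bif decide (p.2.2 = fw p.1) then 0 else p.2.1 + 1) (l := fl) (s0 := fun _ => 0)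
      (B := fun a => 2 * sz (fl a) + 1) ?_ hl (by fun_prop)
      (((PBdd.const 2).mul hl.sz_le).add (PBdd.const 1)) ?_
  · exact Poly.cond (by fun_prop) (by fun_prop) (by fun_prop)
  · intro a l₁ l₂ h
    have h1 : fidx (fw a) l₂ ≤ l₂.length := hle _ _
    have h2 : l₂.length ≤ (fl a).length := by rw [h]; simp
    have h3 := length_lt_sz (fl a)
    have h4 : sz (fidx (fw a) l₂) = 2 * fidx (fw a) l₂ + 1 := by simp
    change sz (fidx (fw a) l₂) ≤ 2 * sz (fl a) + 1
    rw [h4]
    omega

private theorem RedP_sz_numT (l : List Bool) : sz (numT l) ≤ 100 * l.length + 100 := by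
  induction l with
  | nil =>
    have h : numT [] = [(0, [])] := rfl
    rw [h]
    simp
  | cons b l ih =>
    have h : numT (b :: l) = bif b then [(1, []), (2, []), (1, []), (0, []), (0, [])] ++ numT l ++
      [(0, [])] else [(2, []), (1, []), (0, []), (0, [])] ++ numT l := rfl
    have e := sz_append (numT l) [((0 : ℕ), ([] : List Bool))]
    have h5 : sz ([((0 : ℕ), ([] : List Bool))] : List Tok) ≤ 10 := by simp
    rw [h]
    cases b with
    | false =>
      simp only [cond_false, List.cons_append, List.nil_append, sz_lcons, sz_pair, sz_nat,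
        sz_lnil, List.length_cons]
      omega
    | true =>
      simp only [cond_true, List.cons_append, List.nil_append, sz_lcons, sz_pair, sz_nat,
        sz_lnil, List.length_cons] at e h5 ⊢
      omega

private theorem RedP_numT {fl : α → List Bool} (hl : Poly fl) :
    Poly (fun a => numT (fl a)) := by
  unfold numT
  refine Poly.foldr (f := fun p : α × List Tok × Bool =>
      bif p.2.2 then [(1, []), (2, []), (1, []), (0, []), (0, [])] ++ p.2.1 ++ [(0, [])]
        else [(2, []), (1, []), (0, []), (0, [])] ++ p.2.1) (l := fl)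
      (s0 := fun _ => [(0, [])]) (B := fun a => 100 * sz (fl a) + 100) ?_ hl (by fun_prop)
      (((PBdd.const 100).mul hl.sz_le).add (PBdd.const 100)) ?_
  · exact Poly.cond (by fun_prop) (by fun_prop) (by fun_prop)
  · intro a l₁ l₂ h
    have h1 : sz (numT l₂) ≤ 100 * l₂.length + 100 := RedP_sz_numT l₂
    have h2 : l₂.length ≤ (fl a).length := by rw [h]; simp
    have h3 := length_lt_sz (fl a)
    change sz (numT l₂) ≤ 100 * sz (fl a) + 100
    omega

private theorem RedP_tokCode {fq : α → Tok} (hq : Poly fq) :
    Poly (fun a => tokCode (fq a)) := by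
  unfold tokCode
  refine Poly.ite (by fun_prop) (by fun_prop) (Poly.ite (by fun_prop) (by fun_prop)
    (Poly.ite (by fun_prop) (by fun_prop) (Poly.ite (by fun_prop) (by fun_prop) ?_)))
  exact Poly.append (by fun_prop) (Poly.flatMap (f := fun (_ : α) (b : Bool) => [true, true, b])
    (by fun_prop) (by fun_prop))

private theorem RedP_two {fT : α → List Tok} (hT : Poly fT) :
    Poly (fun a => two ((fT a).filter canb)) := by
  have hE : Poly (fun _ : α => (([], [], [], []) : Pool.Agent.TI.Env)) :=
    H.MP_5be563_lc.PT.Poly.const _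
  have h : Poly (fun a => st ((fT a).filter canb)) := Pool.Agent.TI.Poly.mach hE hT
  unfold two
  fun_prop

/-- The new tokens of one token. -/
private def redQ (n : ℕ) (N : List (List Bool)) (r : List Bool) (q : Tok) : List Tok :=
  bif decide (q.1 = 4) then numT (bl (W n) r (fidx q.2 N)) else [q]

private theorem RedP_redT_eq (n : ℕ) (T : List Tok) (r : List Bool) :
    redT n T r = T.flatMap (redQ n (names T) r) := rfl

private theorem RedP_redQ {fn : α → ℕ} {fN : α → List (List Bool)} {fr : α → List Bool}
    {fq : α → Tok} (hn : Poly fn) (hN : Poly fN) (hr : Poly fr) (hq : Poly fq) :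
    Poly (fun a => redQ (fn a) (fN a) (fr a) (fq a)) := by
  have hf : Poly (fun a => fidx (fq a).2 (fN a)) := RedP_fidx (Poly.comp Poly.snd hq) hN
  have h1 : Poly (fun a => numT (bl (W (fn a)) (fr a) (fidx (fq a).2 (fN a)))) :=
    RedP_numT (RedP_bl (RedP_W hn) hr hf)
  have h2 : Poly (fun a => decide ((fq a).1 = 4)) :=
    Poly.nateq (Poly.comp Poly.fst hq) (H.MP_5be563_lc.PT.Poly.const 4)
  have h3 : Poly (fun a => [fq a]) := Poly.lcons hq (H.MP_5be563_lc.PT.Poly.const [])
  unfold redQ
  exact Poly.cond h2 h1 h3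

private theorem RedP_redT {fn : α → ℕ} {fT : α → List Tok} {fr : α → List Bool} (hn : Poly fn)
    (hT : Poly fT) (hr : Poly fr) : Poly (fun a => redT (fn a) (fT a) (fr a)) := by
  have hn' : Poly (fun p : α × Tok => fn p.1) := Poly.comp hn Poly.fst
  have hr' : Poly (fun p : α × Tok => fr p.1) := Poly.comp hr Poly.fst
  have hN' : Poly (fun p : α × Tok => names (fT p.1)) :=
    Pool.Agent.TI.Poly.names (Poly.comp hT Poly.fst)
  have hq' : Poly (fun p : α × Tok => p.2) := Poly.snd
  have h4 := RedP_redQ hn' hN' hr' hq'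
  simp only [RedP_redT_eq]
  exact H.MP_5be563_lc.PT.Poly.flatMap (f := fun a => redQ (fn a) (names (fT a)) (fr a)) h4 hT

/-- The result for the list of tokens `T`. -/
private def redS (n : ℕ) (T : List Tok) (r : List Bool) : List Bool :=
  bif two (T.filter canb) then (redT n T r).flatMap tokCode else []

private theorem RedP_redS {fn : α → ℕ} {fT : α → List Tok} {fr : α → List Bool} (hn : Poly fn)
    (hT : Poly fT) (hr : Poly fr) : Poly (fun a => redS (fn a) (fT a) (fr a)) := by
  have h1 : Poly (fun a => (redT (fn a) (fT a) (fr a)).flatMap tokCode) :=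
    H.MP_5be563_lc.PT.Poly.flatMap (f := fun (_ : α) => tokCode)
      (RedP_tokCode Poly.snd) (RedP_redT hn hT hr)
  unfold redS
  exact Poly.cond (RedP_two hT) h1 (H.MP_5be563_lc.PT.Poly.const [])

private theorem RedP_red_eq (x r : List Bool) : red x r = match tokz x with
    | none => []
    | some T => redS x.length T r := by
  unfold red
  cases tokz x <;> rfl

theorem poly_red : Poly (fun z : List Bool × List Bool => red z.1 z.2) := by
  have h1 : Poly (fun z : List Bool × List Bool => z.1) := Poly.fst
  have h2' : Poly (fun p : (List Bool × List Bool) × List Tok => p.1.2) :=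
    Poly.comp Poly.snd Poly.fst
  have h1' : Poly (fun p : (List Bool × List Bool) × List Tok => p.1.1.length) :=
    Poly.length (Poly.comp Poly.fst Poly.fst)
  have h3' : Poly (fun p : (List Bool × List Bool) × List Tok => p.2) := Poly.snd
  have h5 := RedP_redS h1' h3' h2'
  have h := Poly.ocase (f := fun _ : List Bool × List Bool => ([] : List Bool))
    (g := fun z T => redS z.1.length T z.2)
    (Pool.Agent.TI.Poly.tokz h1) (H.MP_5be563_lc.PT.Poly.const []) h5
  refine (show (fun z : List Bool × List Bool => red z.1 z.2) = _ from ?_) ▸ h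
  funext z
  rw [RedP_red_eq]
  cases tokz z.1 <;> rfl

theorem tm_red : Nonempty (Turing.TM2ComputableInPolyTime pairCode (fun s : List Bool => s)
    (fun z : List Bool × List Bool => red z.1 z.2)) :=
  Poly.tm2_encoded unpair (Pool.Agent.TI.Poly.unpair Poly.id) unpair_pairCode Poly.id poly_red

end Pool.Agent.TE
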