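import Pool.Agent.H.MP_b2d7dd_lc.TE.Cnt

/-!
# Module Small: small counterexamples
-/

namespace Pool.Agent.TE

open Pool.Agent.TI (Tm Valid)
open Pool.Agent.KV (Zk)

private theorem Small_line {s t : Tm} {x : List Bool → ℕ} (hx : ∀ w, 0 < x w)
    (h : s.val x ≠ t.val x) (a : List Bool) :
    ∃ v, 0 < v ∧ v ≤ Zk (s.sz + t.sz) + 1 ∧
      s.val (Function.update x a v) ≠ t.val (Function.update x a v) := by
  by_contra hc
  push Not at hc
  have h1 := zerosV s t hx a ⟨x a, hx a, by rw [Function.update_eq_self]; exact h⟩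
    (Finset.Icc 1 (Zk (s.sz + t.sz) + 1)) (fun v hv => by
      rw [Finset.mem_Icc] at hv
      exact ⟨by omega, hc v (by omega) hv.2⟩)
  rw [Nat.card_Icc] at h1
  omega

private theorem Small_list {s t : Tm} (L : List (List Bool)) {x : List Bool → ℕ}
    (hx : ∀ w, 0 < x w) (h : s.val x ≠ t.val x) :
    ∃ y : List Bool → ℕ, (∀ w, 0 < y w) ∧ (∀ w ∈ L, y w ≤ Zk (s.sz + t.sz) + 1) ∧
      s.val y ≠ t.val y := by
  induction L with
  | nil => exact ⟨x, hx, by simp, h⟩
  | cons a L ih =>
    obtain ⟨y, hy, hL, hne⟩ := ih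
    obtain ⟨v, hv0, hv1, hv⟩ := Small_line hy hne a
    refine ⟨Function.update y a v, fun w => ?_, fun w hw => ?_, hv⟩
    · by_cases hwa : w = a
      · subst hwa
        rw [Function.update_self]
        exact hv0
      · rw [Function.update_of_ne hwa]
        exact hy w
    · by_cases hwa : w = a
      · subst hwa
        rw [Function.update_self]
        exact hv1
      · rw [Function.update_of_ne hwa]
        rcases List.mem_cons.1 hw with h1 | h1
        · exact absurd h1 hwa
        · exact hL w h1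

theorem small_counterexample {s t : Tm} (h : ¬ Valid s t) :
    ∃ x : List Bool → ℕ, (∀ w, 0 < x w ∧ x w ≤ 2 ^ (50 * (s.sz + t.sz + 1) ^ 3) + 1) ∧
      s.val x ≠ t.val x := by
  classical
  unfold Valid at h
  push Not at h
  obtain ⟨x, hx, hne⟩ := h
  obtain ⟨y, hy, hL, hne'⟩ := Small_list (s.vars ++ t.vars) hx hne
  have e : ∀ (u : Tm), (∀ w ∈ u.vars, w ∈ s.vars ++ t.vars) →
      u.val y = u.val (fun w => if w ∈ s.vars ++ t.vars then y w else 1) := by
    intro u hu
    refine Tm.val_congr fun w hw => ?_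
    rw [if_pos (hu w hw)]
  refine ⟨fun w => if w ∈ s.vars ++ t.vars then y w else 1, fun w => ?_, ?_⟩
  · by_cases hw : w ∈ s.vars ++ t.vars
    · simp only [hw, if_true]
      exact ⟨hy w, hL w hw⟩
    · simp only [hw, if_false]
      exact ⟨Nat.one_pos, Nat.le_add_left _ _⟩
  · rw [← e s (fun w hw => List.mem_append_left _ hw),
      ← e t (fun w hw => List.mem_append_right _ hw)]
    exact hne'

end Pool.Agent.TE
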